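import Pool.Agent.Lib.MP_972ec5_co.Sum.Par

/-! Sum complexes and their covers by wall crossings. -/

namespace Pool.Agent.Lib.MP_972ec5_co.Sum

open Finset

/-- A generating subset of an abelian group that is cut out by walls. -/
structure Dat (R : Type) [AddCommGroup R] where
  S : Set R
  W : Type
  finW : Finite W
  k : W → ℕ
  π : (κ : W) → R →+ ZMod (k κ)
  zero_mem : (0 : R) ∈ S
  gen : AddSubgroup.closure S = ⊤
  two : ∀ κ, ∀ s ∈ S, π κ s = 0 ∨ π κ s = 1
  three : ∀ κ, 3 ≤ k κ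
  sep : ∀ x ∉ S, ∃ κ, π κ x ≠ 0 ∧ π κ x ≠ 1
  κ0 : W
  s1 : R
  s1_mem : s1 ∈ S
  π_s1 : π κ0 s1 = 1

variable {R : Type} [AddCommGroup R] (D : Dat R)

namespace Dat

def X0 : Type := {y : I → R // ∑ i, y i ∈ D.S}

instance [Finite R] : Finite D.X0 := Subtype.finite

def m0 (a : I × D.S) (y : D.X0) : D.X0 :=
  ⟨y.1 + Pi.single a.1 (a.2.1 - ∑ i, y.1 i), by simp [sum_add_distrib]⟩

lemma sum_m0 (a : I × D.S) (y : D.X0) : ∑ i, (D.m0 a y).1 i = a.2.1 := by
  simp [m0, sum_add_distrib]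

def C0 : Ch D.S D.X0 where
  mv := D.m0
  st y := ⟨_, y.2⟩
  st_mv a y := Subtype.ext (D.sum_m0 a y)
  mv_mv j s s' y := Subtype.ext (by
    change (D.m0 (j, s') y).1 + Pi.single j (s.1 - ∑ i, (D.m0 (j, s') y).1 i) = _
    rw [sum_m0]
    simp only [m0]
    rw [add_assoc, ← Pi.single_add]
    congr 2
    abel)
  mv_st j y := Subtype.ext (by simp [m0])

/-- The displacement of a word. -/
def disp : R → Wd D.S → I → R
  | _, [] => 0
  | s, a :: u => Pi.single a.1 (a.2.1 - s) + disp a.2.1 u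

lemma run0 (y : D.X0) (u : Wd D.S) : (D.C0.run y u).1 = y.1 + D.disp (∑ i, y.1 i) u := by
  induction u generalizing y with
  | nil => simp [disp]
  | cons a u ih =>
    rw [Ch.run_cons, ih]
    change (D.m0 a y).1 + D.disp (∑ i, (D.m0 a y).1 i) u = _
    rw [sum_m0, disp, m0, add_assoc]

lemma disp_fo (f : I → I) (s : R) (u : Wd D.S) :
    D.disp s (fo f u) = ∑ j, Pi.single (f j) (D.disp s u j) := by
  induction u generalizing s with
  | nil => simp [disp]
  | cons a u ih =>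
    rw [fo_cons, disp, disp, ih]
    simp only [Pi.add_apply, Pi.single_add, sum_add_distrib]
    congr 1
    rw [sum_eq_single a.1 (fun b _ hb => by simp [hb]) (by simp)]
    simp

lemma fold0 (f : I → I) {y y' : D.X0} (hs : D.C0.st y = D.C0.st y') {u u' : Wd D.S}
    (h : D.C0.run y u = D.C0.run y u') : D.C0.run y' (fo f u) = D.C0.run y' (fo f u') := by
  have h1 := congrArg Subtype.val h
  rw [run0, run0, add_right_inj] at h1
  have h2 : ∑ i, y.1 i = ∑ i, y'.1 i := congrArg Subtype.val hs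
  refine Subtype.ext ?_
  rw [run0, run0, disp_fo, disp_fo, ← h2, h1]

lemma res0 {J : Finset I} {y y' : D.X0} (h : y' ∈ D.C0.Res J y) {i : I} (hi : i ∉ J) :
    y'.1 i = y.1 i := by
  obtain ⟨u, hu, rfl⟩ := h
  induction u generalizing y with
  | nil => rfl
  | cons a u ih =>
    rw [Ch.run_cons, ih (in_cons.1 hu).2]
    have : i ≠ a.1 := fun e => hi (e ▸ (in_cons.1 hu).1)
    simp [C0, m0, this]

lemma ext0 {y y' : D.X0} (l : I) (h : ∀ i, i ≠ l → y.1 i = y'.1 i)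
    (hs : ∑ i, y.1 i = ∑ i, y'.1 i) : y = y' := by
  refine Subtype.ext (funext fun i => ?_)
  by_cases hi : i = l
  · subst hi
    rw [← add_sum_erase _ _ (mem_univ i), ← add_sum_erase _ _ (mem_univ i),
      sum_congr rfl fun t ht => h t (ne_of_mem_erase ht)] at hs
    exact add_right_cancel hs
  · exact h i hi

/-- Every position in a residue of rank two is reached. -/
lemma reach0 {j l : I} (hjl : j ≠ l) (y : D.X0) (d : R) (s : D.S) :
    ∃ y' ∈ D.C0.Res {j, l} y, y'.1 j = d ∧ D.C0.st y' = s := by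
  have mj : ∀ (s : D.S) (z : D.X0), D.C0.mv (j, s) z ∈ D.C0.Res {j, l} z :=
    fun s z => Ch.res_mv (by simp) z
  have ml : ∀ (s : D.S) (z : D.X0), D.C0.mv (l, s) z ∈ D.C0.Res {j, l} z :=
    fun s z => Ch.res_mv (by simp) z
  have key : ∀ e : R, ∀ z : D.X0, ∃ z' ∈ D.C0.Res {j, l} z, z'.1 j = z.1 j + e := by
    intro e
    have he : e ∈ AddSubgroup.closure D.S := D.gen ▸ AddSubgroup.mem_top e
    induction he using AddSubgroup.closure_induction'' with
    | mem x hx =>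
      intro z
      refine ⟨_, Ch.res_trans (ml ⟨0, D.zero_mem⟩ z) (mj ⟨x, hx⟩ _), ?_⟩
      change (D.m0 _ z).1 j + (Pi.single j (x - ∑ i, (D.m0 _ z).1 i) : I → R) j = _
      rw [sum_m0]
      simp [m0, hjl]
    | neg_mem x hx =>
      intro z
      refine ⟨_, Ch.res_trans (ml ⟨x, hx⟩ z) (mj ⟨0, D.zero_mem⟩ _), ?_⟩
      change (D.m0 _ z).1 j + (Pi.single j (0 - ∑ i, (D.m0 _ z).1 i) : I → R) j = _
      rw [sum_m0]
      simp [m0, hjl]
    | zero => exact fun z => ⟨z, Ch.res_refl _ _, by simp⟩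
    | add x x' _ _ h h' =>
      intro z
      obtain ⟨z', h1, h2⟩ := h z
      obtain ⟨z'', h3, h4⟩ := h' z'
      exact ⟨z'', Ch.res_trans h1 h3, by rw [h4, h2, add_assoc]⟩
  obtain ⟨z, h1, h2⟩ := key (d - y.1 j) y
  refine ⟨_, Ch.res_trans h1 (ml s z), ?_, D.C0.st_mv _ _⟩
  simp [C0, m0, hjl, h2]

/-- The image of a chamber under a wall. -/
def Z (κ : D.W) (y : D.X0) : I → ZMod (D.k κ) := fun i => D.π κ (y.1 i)

def σ (κ : D.W) (y : D.X0) : ZMod (D.k κ) := D.π κ (∑ i, y.1 i)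

lemma sum_Z (κ : D.W) (y : D.X0) : ∑ i, D.Z κ y i = D.σ κ y := (map_sum _ _ _).symm

lemma σ_two (κ : D.W) (y : D.X0) : D.σ κ y = 0 ∨ D.σ κ y = 1 := D.two κ _ y.2

lemma Z_m0 (κ : D.W) (a : I × D.S) (y : D.X0) :
    D.Z κ (D.m0 a y) = D.Z κ y + Pi.single a.1 (D.σ κ (D.m0 a y) - D.σ κ y) := by
  funext i
  rw [σ, sum_m0]
  by_cases h : i = a.1
  · subst h; simp [Z, m0, σ]
  · simp [Z, m0, h]

/-- The crossing of the wall with label `v`. -/
def tg (κ : D.W) (y y' : D.X0) (v : I → ZMod (D.k κ)) : ZMod 2 :=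
  if D.σ κ y ≠ D.σ κ y' ∧ v = D.Z κ y + D.Z κ y' then 1 else 0

/-- The potential of the crossings on a residue of type `{j, l}`. -/
def pot (κ : D.W) (j l : I) (β : ZMod (D.k κ)) (y : D.X0) (v : I → ZMod (D.k κ)) : ZMod 2 :=
  if (∀ i, i ≠ j → i ≠ l → v i = D.Z κ y i + D.Z κ y i) ∧ ∑ i, v i = 1 then
    par (v j - (β + β)) (D.Z κ y j - β) (D.σ κ y) else 0

lemma pot_mv (κ : D.W) {j l : I} (hjl : j ≠ l) (β : ZMod (D.k κ)) (y : D.X0) {a : I × D.S}
    (ha : a.1 ∈ ({j, l} : Finset I)) (v : I → ZMod (D.k κ)) :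
    D.pot κ j l β (D.m0 a y) v = D.pot κ j l β y v + D.tg κ y (D.m0 a y) v := by
  have hZ := D.Z_m0 κ a y
  have h1 := D.σ_two κ y
  have h2 := D.σ_two κ (D.m0 a y)
  have h3 := D.sum_Z κ y
  have h4 := D.sum_Z κ (D.m0 a y)
  have hk := D.three κ
  unfold pot tg
  generalize D.Z κ (D.m0 a y) = z' at *
  generalize D.Z κ y = z at *
  generalize D.σ κ (D.m0 a y) = s' at *
  generalize D.σ κ y = s at *
  have hoff : ∀ i, i ≠ j → i ≠ l → z' i = z i := fun i hi hi' => by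
    have : i ≠ a.1 := by
      rintro rfl
      simp [hi, hi'] at ha
    simp [hZ, this]
  have hs : s ≠ s' → s + s' = 1 := by
    rcases h1 with rfl | rfl <;> rcases h2 with rfl | rfl <;> simp
  have e1 : (∀ i, i ≠ j → i ≠ l → v i = z' i + z' i) ↔ ∀ i, i ≠ j → i ≠ l → v i = z i + z i :=
    forall_congr' fun i => forall_congr' fun hi => forall_congr' fun hi' => by rw [hoff i hi hi']
  by_cases hc : (∀ i, i ≠ j → i ≠ l → v i = z i + z i) ∧ ∑ i, v i = 1
  · rw [if_pos hc, if_pos ⟨e1.2 hc.1, hc.2⟩]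
    have e2 : (s ≠ s' ∧ v = z + z') ↔ (s ≠ s' ∧ v j - (β + β) = z j - β + (z' j - β)) := by
      refine and_congr_right fun hne => ⟨fun h => by rw [h, Pi.add_apply]; ring, fun h => ?_⟩
      have g : ∀ i, i ≠ l → v i = (z + z') i := fun i hi => by
        by_cases hij : i = j
        · rw [hij, Pi.add_apply]; linear_combination h
        · rw [Pi.add_apply, hoff i hij hi, hc.1 i hij hi]
      have g2 : ∑ i, v i = ∑ i, (z + z') i := by
        simp only [Pi.add_apply, sum_add_distrib, h3, h4, hs hne, hc.2]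
      funext i
      by_cases hi : i = l
      · subst hi
        rw [← add_sum_erase _ _ (mem_univ i), ← add_sum_erase _ _ (mem_univ i),
          sum_congr rfl fun t ht => g t (ne_of_mem_erase ht)] at g2
        exact add_right_cancel g2
      · exact g i hi
    simp only [e2]
    rcases mem_insert.1 ha with h | h
    · have : z' j - β = z j - β + (s' - s) := by rw [hZ, h]; simp; ring
      rw [this]
      exact par_mv1 hk _ _ h1 h2
    · have : z' j = z j := by rw [hZ, mem_singleton.1 h]; simp [hjl]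
      rw [this]
      exact par_mv2 hk _ _ h1 h2
  · rw [if_neg hc, if_neg fun h => hc ⟨e1.1 h.1, h.2⟩, if_neg, add_zero]
    rintro ⟨hne, rfl⟩
    refine hc ⟨fun i hi hi' => by rw [Pi.add_apply, hoff i hi hi'], ?_⟩
    simp only [Pi.add_apply, sum_add_distrib, h3, h4, hs hne]

abbrev Lab : Type := (κ : D.W) → (I → ZMod (D.k κ)) → ZMod 2

abbrev X1 : Type := D.X0 × D.Lab

instance [Finite R] : Finite D.X1 := by
  have := D.finW
  have : ∀ κ, NeZero (D.k κ) := fun κ => ⟨by have := D.three κ; omega⟩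
  infer_instance

def m1 (a : I × D.S) (x : D.X1) : D.X1 :=
  (D.m0 a x.1, fun κ v => x.2 κ v + D.tg κ x.1 (D.m0 a x.1) v)

lemma other : ∀ j : I, ∃ l, j ≠ l := by decide

def C1 : Ch D.S D.X1 where
  mv := D.m1
  st x := D.C0.st x.1
  st_mv a x := D.C0.st_mv a x.1
  mv_mv j s s' x := by
    have e : D.m0 (j, s) (D.m0 (j, s') x.1) = D.m0 (j, s) x.1 := D.C0.mv_mv j s s' x.1
    refine Prod.ext e (funext fun κ => funext fun v => ?_)
    obtain ⟨l, hl⟩ := other j
    have h1 := D.pot_mv κ hl 0 x.1 (a := (j, s')) (by simp) v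
    have h2 := D.pot_mv κ hl 0 (D.m0 (j, s') x.1) (a := (j, s)) (by simp) v
    have h3 := D.pot_mv κ hl 0 x.1 (a := (j, s)) (by simp) v
    rw [e] at h2
    simp only [m1, e]
    linear_combination h3 - h1 - h2
  mv_st j x := by
    have e : D.m0 (j, D.C0.st x.1) x.1 = x.1 := D.C0.mv_st j x.1
    refine Prod.ext e (funext fun κ => funext fun v => ?_)
    simp [m1, e, tg]

lemma run1_fst (x : D.X1) (u : Wd D.S) : (D.C1.run x u).1 = D.C0.run x.1 u := by
  induction u generalizing x with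
  | nil => rfl
  | cons a u ih => exact ih _

lemma run1_snd (κ : D.W) {j l : I} (hjl : j ≠ l) (β : ZMod (D.k κ)) (v : I → ZMod (D.k κ))
    {u : Wd D.S} (hu : In {j, l} u) (x : D.X1) :
    (D.C1.run x u).2 κ v = x.2 κ v + D.pot κ j l β (D.C1.run x u).1 v - D.pot κ j l β x.1 v := by
  induction u generalizing x with
  | nil => simp
  | cons a u ih =>
    rw [Ch.run_cons, ih (in_cons.1 hu).2]
    have := D.pot_mv κ hjl β x.1 (in_cons.1 hu).1 v
    change x.2 κ v + D.tg κ x.1 (D.m0 a x.1) v + _ - D.pot κ j l β (D.m0 a x.1) v = _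
    linear_combination -this

lemma sub_pair : ∀ J : Finset I, J.card ≤ 2 → ∃ j l : I, j ≠ l ∧ J ⊆ {j, l} := by decide

lemma r2_one {J : Finset I} (hJ : J.card ≤ 2) (x : D.X1) {u u' : Wd D.S} (hu : In J u)
    (hu' : In J u') (h : D.C0.run x.1 u = D.C0.run x.1 u') : D.C1.run x u = D.C1.run x u' := by
  obtain ⟨j, l, hjl, hs⟩ := sub_pair J hJ
  have e : (D.C1.run x u).1 = (D.C1.run x u').1 := by rw [run1_fst, run1_fst, h]
  refine Prod.ext e (funext fun κ => funext fun v => ?_)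
  rw [D.run1_snd κ hjl 0 v (hu.mono hs), D.run1_snd κ hjl 0 v (hu'.mono hs), e]

lemma res1 {J : Finset I} {x y : D.X1} (h : y ∈ D.C1.Res J x) : y.1 ∈ D.C0.Res J x.1 :=
  let ⟨u, hu, e⟩ := h; ⟨u, hu, by rw [← e, run1_fst]⟩

/-- There are no empty triangles in the vertex links of the cover. -/
lemma tri_one {i j k : I} (hij : i ≠ j) (hjk : j ≠ k) (hik : i ≠ k) {x y z : D.X1}
    (hy : y ∈ D.C1.Res {j, k} x) (hz : z ∈ D.C1.Res {k, i} y) (hx : x ∈ D.C1.Res {i, j} z) :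
    ∑ t, x.1.1 t + (y.1.1 j - x.1.1 j) ∈ D.S := by
  by_contra hS
  obtain ⟨κ, h0, h1⟩ := D.sep _ hS
  obtain ⟨η, e0, e1, e2⟩ := par_key (D.three κ) h0 h1
  have hρ : D.π κ (∑ t, x.1.1 t + (y.1.1 j - x.1.1 j)) =
      D.σ κ x.1 + (D.Z κ y.1 j - D.Z κ x.1 j) := by simp [σ, Z]
  rw [hρ] at e1 e2
  have a1 : D.Z κ z.1 j = D.Z κ y.1 j :=
    congrArg (D.π κ) (D.res0 (D.res1 hz) (by simp [hjk, hij.symm]))
  have a2 : D.Z κ x.1 k = D.Z κ z.1 k :=
    congrArg (D.π κ) (D.res0 (D.res1 hx) (by simp [hjk.symm, hik.symm]))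
  have a3 : ∀ t, t ≠ j → t ≠ k → D.Z κ y.1 t = D.Z κ x.1 t := fun t h h' =>
    congrArg (D.π κ) (D.res0 (D.res1 hy) (by simp [h, h']))
  have hs := D.sum_Z κ x.1
  let B := D.Z κ y.1 j
  let ρ := D.σ κ x.1 + (B - D.Z κ x.1 j)
  let v : I → ZMod (D.k κ) := D.Z κ x.1 + D.Z κ x.1 +
    Pi.single j (B + B + η - (D.Z κ x.1 j + D.Z κ x.1 j)) + Pi.single k (1 - (η + (ρ + ρ)))
  have vj : v j = B + B + η := by simp [v, hjk]
  have vk : v k = D.Z κ x.1 k + D.Z κ x.1 k + (1 - (η + (ρ + ρ))) := by simp [v, hjk.symm]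
  have vt : ∀ t, t ≠ j → t ≠ k → v t = D.Z κ x.1 t + D.Z κ x.1 t := fun t h h' => by
    simp [v, h, h']
  have vs : ∑ t, v t = 1 := by
    simp only [v, Pi.add_apply, sum_add_distrib, hs, sum_pi_single', mem_univ, if_true, ρ]
    ring
  have p2 : ∀ q : D.X0, D.Z κ q j = B → D.pot κ k i 0 q v = 0 := fun q hq =>
    if_neg fun h => e0 (by
      have := h.1 j hjk hij.symm
      rw [vj, hq] at this
      linear_combination this)
  have p3 : ∀ q : D.X0, D.Z κ q k = D.Z κ x.1 k → D.pot κ i j 0 q v = 0 := fun q hq =>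
    if_neg fun h => e1 (by
      have := h.1 k hik.symm hjk.symm
      rw [vk, hq] at this
      linear_combination -this)
  obtain ⟨u1, hu1, f1⟩ := hy
  obtain ⟨u2, hu2, f2⟩ := hz
  obtain ⟨u3, hu3, f3⟩ := hx
  have b1 := D.run1_snd κ hjk B v hu1 x
  have b2 := D.run1_snd κ hik.symm 0 v hu2 y
  have b3 := D.run1_snd κ hij 0 v hu3 z
  rw [f1] at b1
  rw [f2, p2 _ a1, p2 _ rfl] at b2
  rw [f3, p3 _ rfl, p3 _ a2.symm] at b3
  have b4 : D.pot κ j k B x.1 v = D.pot κ j k B y.1 v := by linear_combination b1 + b2 + b3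
  unfold pot at b4
  rw [if_pos ⟨vt, vs⟩, if_pos ⟨fun t h h' => by rw [a3 t h h', vt t h h'], vs⟩, vj,
    add_sub_cancel_left, sub_self] at b4
  refine e2 _ _ (D.σ_two κ x.1) (D.σ_two κ y.1) (Eq.trans ?_ b4)
  congr 1
  ring

end Dat

end Pool.Agent.Lib.MP_972ec5_co.Sum
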