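import Pool.Agent.Lib.MP_972ec5_co.Spec

/-! Chamber systems of rank four in which every panel is a copy of a set `S` of states. -/

namespace Pool.Agent.Lib.MP_972ec5_co.Sum

open Finset

abbrev I := Fin 4

abbrev Wd (S : Type) := List (I × S)

/-- All letters have their type in `J`. -/
def In {S : Type} (J : Finset I) (u : Wd S) : Prop := ∀ a ∈ u, a.1 ∈ J

/-- Change the types of the letters. -/
def fo {S : Type} (f : I → I) (u : Wd S) : Wd S := u.map fun a => (f a.1, a.2)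

/-- The state after a word. -/
def fin {S : Type} (s : S) (u : Wd S) : S := u.foldl (fun _ a => a.2) s

structure Ch (S Ω : Type) where
  mv : I × S → Ω → Ω
  st : Ω → S
  st_mv : ∀ a ω, st (mv a ω) = a.2
  mv_mv : ∀ j s s' ω, mv (j, s) (mv (j, s') ω) = mv (j, s) ω
  mv_st : ∀ j ω, mv (j, st ω) ω = ω

variable {S Ω Ω' : Type}

lemma In.nil (J : Finset I) : In J ([] : Wd S) := fun _ h => by simp at h

lemma in_cons {J : Finset I} {a : I × S} {u : Wd S} : In J (a :: u) ↔ a.1 ∈ J ∧ In J u :=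
  List.forall_mem_cons

lemma in_append {J : Finset I} {u u' : Wd S} : In J (u ++ u') ↔ In J u ∧ In J u' :=
  List.forall_mem_append

lemma In.mono {J J' : Finset I} {u : Wd S} (h : In J u) (hJ : J ⊆ J') : In J' u :=
  fun a ha => hJ (h a ha)

lemma In.fo {J J' : Finset I} {u : Wd S} {f : I → I} (h : In J u) (hf : ∀ j ∈ J, f j ∈ J') :
    In J' (fo f u) := by
  intro a ha
  obtain ⟨b, hb, rfl⟩ := List.mem_map.1 ha
  exact hf _ (h b hb)

lemma In.fo_eq {J : Finset I} {u : Wd S} {f : I → I} (h : In J u) (hf : ∀ j ∈ J, f j = j) :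
    Sum.fo f u = u := by
  refine (List.map_congr_left fun a ha => ?_).trans (List.map_id u)
  rw [hf _ (h a ha)]
  rfl

@[simp] lemma fo_nil (f : I → I) : fo f ([] : Wd S) = [] := rfl

@[simp] lemma fo_cons (f : I → I) (a : I × S) (u : Wd S) :
    fo f (a :: u) = (f a.1, a.2) :: fo f u := rfl

lemma fo_append (f : I → I) (u u' : Wd S) : fo f (u ++ u') = fo f u ++ fo f u' := List.map_append

lemma fo_fo (f g : I → I) (u : Wd S) : fo f (fo g u) = fo (f ∘ g) u := by
  simp [fo]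

lemma fo_id (u : Wd S) : fo id u = u := by simp [fo]

lemma fin_fo (f : I → I) (u : Wd S) (s : S) : fin s (fo f u) = fin s u := by
  induction u generalizing s with
  | nil => rfl
  | cons a u ih => exact ih _

namespace Ch

variable (C : Ch S Ω)

def run (ω : Ω) (u : Wd S) : Ω := u.foldl (fun ω a => C.mv a ω) ω

@[simp] lemma run_nil (ω : Ω) : C.run ω [] = ω := rfl

@[simp] lemma run_cons (ω : Ω) (a : I × S) (u : Wd S) : C.run ω (a :: u) = C.run (C.mv a ω) u := rfl

lemma run_append (ω : Ω) (u u' : Wd S) : C.run ω (u ++ u') = C.run (C.run ω u) u' :=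
  List.foldl_append

lemma st_run (ω : Ω) (u : Wd S) : C.st (C.run ω u) = fin (C.st ω) u := by
  induction u generalizing ω with
  | nil => rfl
  | cons a u ih => rw [run_cons, ih, C.st_mv]; rfl

lemma mv_back (a : I × S) (ω : Ω) : C.mv (a.1, C.st ω) (C.mv a ω) = ω :=
  (C.mv_mv a.1 (C.st ω) a.2 ω).trans (C.mv_st _ _)

lemma mv_inj (a : I × S) {ω ω' : Ω} (hs : C.st ω = C.st ω') (h : C.mv a ω = C.mv a ω') :
    ω = ω' := by
  rw [← C.mv_back a ω, h, hs, C.mv_back]

lemma run_inj (u : Wd S) {ω ω' : Ω} (hs : C.st ω = C.st ω') (h : C.run ω u = C.run ω' u) :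
    ω = ω' := by
  induction u generalizing ω ω' with
  | nil => exact h
  | cons a u ih => exact C.mv_inj a hs (ih (by rw [C.st_mv, C.st_mv]) h)

lemma run_surj (u : Wd S) (s : S) (ω' : Ω) (h : C.st ω' = fin s u) :
    ∃ ω, C.st ω = s ∧ C.run ω u = ω' := by
  induction u generalizing s with
  | nil => exact ⟨ω', h, rfl⟩
  | cons a u ih =>
    obtain ⟨ω, h1, h2⟩ := ih a.2 h
    refine ⟨C.mv (a.1, s) ω, C.st_mv _ _, ?_⟩
    rw [run_cons, show C.mv a (C.mv (a.1, s) ω) = C.mv (a.1, a.2) ω from C.mv_mv _ _ _ _, ← h1,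
      C.mv_st, h2]

/-- The residue of type `J`. -/
def Res (J : Finset I) (ω : Ω) : Set Ω := {ω' | ∃ u, In J u ∧ C.run ω u = ω'}

variable {C}

lemma res_refl (J : Finset I) (ω : Ω) : ω ∈ C.Res J ω := ⟨[], In.nil J, rfl⟩

lemma res_mv {J : Finset I} {a : I × S} (ha : a.1 ∈ J) (ω : Ω) : C.mv a ω ∈ C.Res J ω :=
  ⟨[a], in_cons.2 ⟨ha, In.nil J⟩, rfl⟩

lemma res_trans {J : Finset I} {x y z : Ω} (h : y ∈ C.Res J x) (h' : z ∈ C.Res J y) :
    z ∈ C.Res J x := by
  obtain ⟨u, hu, rfl⟩ := h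
  obtain ⟨u', hu', rfl⟩ := h'
  exact ⟨u ++ u', in_append.2 ⟨hu, hu'⟩, C.run_append _ _ _⟩

lemma res_symm {J : Finset I} {x y : Ω} (h : y ∈ C.Res J x) : x ∈ C.Res J y := by
  obtain ⟨u, hu, rfl⟩ := h
  induction u generalizing x with
  | nil => exact res_refl _ _
  | cons a u ih =>
    refine res_trans (ih (in_cons.1 hu).2) ?_
    have := res_mv (C := C) (J := J) (a := (a.1, C.st x)) (in_cons.1 hu).1 (C.mv a x)
    rwa [C.mv_back] at this

lemma res_mono {J J' : Finset I} {x y : Ω} (hJ : J ⊆ J') (h : y ∈ C.Res J x) : y ∈ C.Res J' x :=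
  let ⟨u, hu, e⟩ := h; ⟨u, hu.mono hJ, e⟩

lemma res_eq {J : Finset I} {x y : Ω} (h : y ∈ C.Res J x) : C.Res J y = C.Res J x :=
  Set.ext fun _ => ⟨res_trans h, res_trans (res_symm h)⟩

lemma res_one {j : I} {x y : Ω} (h : y ∈ C.Res {j} x) : y = C.mv (j, C.st y) x := by
  obtain ⟨u, hu, rfl⟩ := h
  induction u generalizing x with
  | nil => exact (C.mv_st _ _).symm
  | cons a u ih =>
    obtain ⟨i, s⟩ := a
    obtain rfl : i = j := mem_singleton.1 (in_cons.1 hu).1
    rw [run_cons]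
    exact (ih (in_cons.1 hu).2).trans (C.mv_mv _ _ _ _)

lemma res_empty (x : Ω) : C.Res ∅ x = {x} := by
  ext y
  refine ⟨?_, fun h => h ▸ res_refl _ _⟩
  rintro ⟨u, hu, rfl⟩
  cases u with
  | nil => rfl
  | cons a u => exact absurd (in_cons.1 hu).1 (by simp)

lemma card_one (j : I) (x : Ω) : (C.Res {j} x).ncard = Nat.card S := by
  have : C.Res {j} x = Set.range fun s => C.mv (j, s) x :=
    Set.ext fun y => ⟨fun h => ⟨_, (res_one h).symm⟩,
      fun ⟨s, h⟩ => h ▸ res_mv (a := (j, s)) (mem_singleton_self j) x⟩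
  rw [this]
  refine Set.ncard_range_of_injective fun s s' h => ?_
  have := congrArg C.st h
  simpa [C.st_mv] using this

/-- Comparison of the sizes of two residues. -/
lemma card_le [Finite Ω'] {C' : Ch S Ω'} {J J' : Finset I} {x : Ω} {x' : Ω'} (f : I → I)
    (hf : ∀ j ∈ J, f j ∈ J')
    (h : ∀ u u', In J u → In J u' → C'.run x' (fo f u) = C'.run x' (fo f u') →
      C.run x u = C.run x u') : (C.Res J x).ncard ≤ (C'.Res J' x').ncard := by
  classical
  refine Set.ncard_le_ncard_of_injOn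
    (fun y => if hy : y ∈ C.Res J x then C'.run x' (fo f hy.choose) else x') (fun y hy => ?_)
    (fun y hy z hz e => ?_) (Set.toFinite _)
  · rw [dif_pos hy]
    exact ⟨_, hy.choose_spec.1.fo hf, rfl⟩
  · simp only [dif_pos hy, dif_pos hz] at e
    rw [← hy.choose_spec.2, ← hz.choose_spec.2]
    exact h _ _ hy.choose_spec.1 hz.choose_spec.1 e

end Ch

end Pool.Agent.Lib.MP_972ec5_co.Sum
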