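import Pool.Agent.Lib.MP_972ec5_co.Sum.Word
import Pool.Agent.Lib.MP_972ec5_co.Elem

/-! The uniform Poincare inequality. -/

namespace Pool.Agent.Lib.MP_972ec5_co.Sum

open Finset

section
variable {α β : Type} [Fintype α] [Fintype β]

lemma sum_le_inj {π : α → β} (hπ : Function.Injective π) (h : β → ℝ) (h0 : ∀ b, 0 ≤ h b) :
    ∑ a, h (π a) ≤ ∑ b, h b := by
  classical
  rw [← sum_image (s := univ) (g := π) (f := h) hπ.injOn]
  exact sum_le_sum_of_subset_of_nonneg (subset_univ _) fun b _ _ => h0 b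

lemma sum_le_surj {π : α → β} (hπ : Function.Surjective π) (h : β → ℝ) (h0 : ∀ b, 0 ≤ h b) :
    ∑ b, h b ≤ ∑ a, h (π a) := by
  have := sum_le_inj (Function.injective_surjInv hπ) (fun a => h (π a)) fun a => h0 _
  simpa only [Function.surjInv_eq] using this

lemma sum_sq_tri (f g h : α → ℝ) :
    ∑ a, (f a - h a) ^ 2 ≤ 2 * ∑ a, (f a - g a) ^ 2 + 2 * ∑ a, (g a - h a) ^ 2 := by
  rw [mul_sum, mul_sum, ← sum_add_distrib]
  exact sum_le_sum fun a _ => by nlinarith [sq_nonneg (f a - 2 * g a + h a)]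

end

variable {S Ω : Type}

/-- Powers of a word. -/
def pw (u : Wd S) : ℕ → Wd S
  | 0 => []
  | m + 1 => u ++ pw u m

lemma pw_in {J : Finset I} {u : Wd S} (h : In J u) (m : ℕ) : In J (pw u m) := by
  induction m with
  | zero => exact In.nil J
  | succ m ih => exact in_append.2 ⟨h, ih⟩

lemma pw_length (u : Wd S) (m : ℕ) : (pw u m).length = m * u.length := by
  induction m with
  | zero => simp [pw]
  | succ m ih => rw [pw, List.length_append, ih]; ring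

namespace Ch

variable (C : Ch S Ω)

lemma run_pw (u : Wd S) (m : ℕ) (ω : Ω) : C.run ω (pw u m) = (fun x => C.run x u)^[m] ω := by
  induction m generalizing ω with
  | zero => rfl
  | succ m ih => rw [pw, run_append, ih]; rfl

lemma period [Finite Ω] (ω : Ω) (u : Wd S) (h : fin (C.st ω) u = C.st ω) :
    ∃ e, 0 < e ∧ ∀ k, C.run ω (pw u (e * k)) = ω := by
  let f : {x // C.st x = C.st ω} → {x // C.st x = C.st ω} :=
    fun x => ⟨C.run x.1 u, by rw [st_run, x.2, h]⟩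
  have hf : Function.Injective f := fun x y e =>
    Subtype.ext (C.run_inj u (x.2.trans y.2.symm) (congrArg Subtype.val e))
  obtain ⟨e, he, hp⟩ := hf.mem_periodicPts ⟨ω, rfl⟩
  refine ⟨e, he, fun k => ?_⟩
  have key : ∀ m x, (f^[m] x).1 = (fun x => C.run x u)^[m] x.1 := fun m => by
    induction m with
    | zero => exact fun _ => rfl
    | succ m ih => exact fun x => ih (f x)
  rw [run_pw, ← key _ ⟨ω, rfl⟩, (hp.mul_const k).eq]

lemma word_le [Fintype Ω] {α : Type} [Fintype α] (F : Ω → ℝ) {D0 : ℝ} (h0 : 0 ≤ D0)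
    (hD : ∀ a, ∑ ω, (F (C.mv a ω) - F ω) ^ 2 ≤ D0) (u : Wd S) (ι : α → Ω)
    (hι : Function.Injective ι) (hs : ∀ a b, C.st (ι a) = C.st (ι b)) :
    ∑ a, (F (C.run (ι a) u) - F (ι a)) ^ 2 ≤ 2 ^ (u.length + 1) * D0 := by
  suffices ∑ a, (F (C.run (ι a) u) - F (ι a)) ^ 2 ≤ (2 ^ (u.length + 1) - 2) * D0 by linarith
  induction u generalizing ι with
  | nil => simp
  | cons b u ih =>
    have h1 := ih (fun a => C.mv b (ι a)) (fun x y e => hι (C.mv_inj b (hs x y) e))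
      fun x y => by rw [C.st_mv, C.st_mv]
    have h2 := (sum_le_inj hι (fun ω => (F (C.mv b ω) - F ω) ^ 2) fun _ => sq_nonneg _).trans (hD b)
    have h3 := sum_sq_tri (fun a => F (C.run (C.mv b (ι a)) u)) (fun a => F (C.mv b (ι a)))
      fun a => F (ι a)
    rw [List.length_cons, pow_succ (2 : ℝ) (u.length + 1)]
    simp only [run_cons]
    linarith

variable {C} {n2 n3 : ℕ}

lemma Loc.sum_vert [Fintype Ω] [Fintype C.V] (L : C.Loc n2 n3) (i : I) (h : C.V → ℝ)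
    (h0 : ∀ u, 0 ≤ h u) : ∑ ω, h (C.vert i ω) ≤ n3 * ∑ u, h u := by
  classical
  rw [← sum_fiberwise univ (C.vert i), mul_sum]
  refine sum_le_sum fun u _ => ?_
  rw [sum_congr rfl fun y hy => congrArg h (mem_filter.1 hy).2, sum_const, nsmul_eq_mul]
  refine mul_le_mul_of_nonneg_right ?_ (h0 u)
  rcases (univ.filter fun ω => C.vert i ω = u).eq_empty_or_nonempty with e | ⟨x, hx⟩
  · simp [e]
  · rw [← L.c3 {i}ᶜ x (by rw [card_compl]; simp), ← Set.ncard_coe_finset]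
    refine Nat.cast_le.2 (Set.ncard_le_ncard (fun y hy => ?_) (Set.toFinite _))
    have hy' : C.vert i y = u := (mem_filter.1 (mem_coe.1 hy)).2
    exact (vert_eq.1 ((mem_filter.1 hx).2.trans hy'.symm)).2

lemma Loc.edge_le [Fintype Ω] [Fintype C.V] (L : C.Loc n2 n3) (F : C.V → ℝ) (i k : I) :
    ∑ ω, (F (C.vert i ω) - F (C.vert k ω)) ^ 2 ≤ n3 * En C.G F := by
  classical
  by_cases hik : i = k
  · have := En_nonneg C.G F
    simp only [hik, sub_self]
    simp only [ne_eq, OfNat.ofNat_ne_zero, not_false_eq_true, zero_pow, sum_const_zero]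
    positivity
  have h0 : ∀ u v, (0 : ℝ) ≤ if C.G.Adj u v then (F u - F v) ^ 2 else 0 := fun u v => by
    split_ifs <;> positivity
  refine le_trans (sum_le_sum fun y _ => ?_) (L.sum_vert i
    (fun u => ∑ v, if C.G.Adj u v then (F u - F v) ^ 2 else 0)
    fun u => sum_nonneg fun v _ => h0 u v)
  refine le_trans ?_ (single_le_sum
    (f := fun v => if C.G.Adj (C.vert i y) v then (F (C.vert i y) - F v) ^ 2 else 0)
    (fun v _ => h0 _ v) (mem_univ (C.vert k y)))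
  rw [if_pos (adj_vert hik y)]

/-- From the chambers to the graph. -/
lemma Loc.poin [Fintype Ω] [Fintype C.V] [Fintype S] (L : C.Loc n2 n3) {K : ℝ}
    (hP : ∀ (F : Ω → ℝ) (D0 : ℝ), 0 ≤ D0 → (∀ a, ∑ ω, (F (C.mv a ω) - F ω) ^ 2 ≤ D0) →
      ∃ μ : ℝ, ∑ ω, (F ω - μ) ^ 2 ≤ K * D0) : 
    Poin C.G ((16 + 16 * K * (2 * Fintype.card S + 2)) * n3) := by
  intro F
  have e0 := En_nonneg C.G F
  obtain ⟨μ, hμ⟩ := hP (fun ω => F (C.vert 0 ω)) ((2 * Fintype.card S + 2) * (n3 * En C.G F))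
      (by positivity) fun a => by
    obtain ⟨l, hl⟩ := Dat.other a.1
    have e : ∀ ω, C.vert l (C.mv a ω) = C.vert l ω := fun ω =>
      (vert_res (K := {a.1}) (by simpa using hl.symm) (res_mv (mem_singleton_self _) ω)).symm
    have h1 := sum_sq_tri (fun ω => F (C.vert 0 (C.mv a ω))) (fun ω => F (C.vert l ω))
      fun ω => F (C.vert 0 ω)
    have h2 := L.edge_le F l 0
    have h3 := sum_le_inj (π := fun ω => (C.st ω, C.mv a ω))
      (fun x y h => C.mv_inj a (Prod.mk.inj h).1 (Prod.mk.inj h).2)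
      (fun p : S × Ω => (F (C.vert 0 p.2) - F (C.vert l p.2)) ^ 2) fun _ => sq_nonneg _
    rw [Fintype.sum_prod_type] at h3
    have h4 := h3.trans (sum_le_sum fun _ _ => L.edge_le F 0 l)
    simp only [e, sum_const, card_univ, nsmul_eq_mul] at h4
    linarith
  have a1 : ∑ v, (F v - μ) ^ 2 ≤ ∑ p : I × Ω, (F (C.vert p.1 p.2) - μ) ^ 2 :=
    sum_le_surj (π := fun p : I × Ω => C.vert p.1 p.2)
      (fun v => let ⟨i, ω, e⟩ := vert_surj v; ⟨(i, ω), e.symm⟩) (fun v => (F v - μ) ^ 2)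
      fun _ => sq_nonneg _
  have a2 : ∀ i, ∑ ω, (F (C.vert i ω) - μ) ^ 2 ≤
      (2 + 2 * K * (2 * Fintype.card S + 2)) * (n3 * En C.G F) := fun i => by
    have h1 := sum_sq_tri (fun ω => F (C.vert i ω)) (fun ω => F (C.vert 0 ω)) fun _ => μ
    have h2 := L.edge_le F i 0
    linarith
  rw [Fintype.sum_prod_type] at a1
  have a3 := a1.trans (sum_le_sum fun i _ => a2 i)
  rw [sum_const, card_univ, Fintype.card_fin, nsmul_eq_mul] at a3
  have a4 := Var_eq fun v => F v - μ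
  simp only [Var, sub_sub_sub_cancel_right, dotProduct, ← sq] at a4
  have a5 := mul_le_mul_of_nonneg_left a3 (by positivity : (0 : ℝ) ≤ 2 * Fintype.card C.V)
  unfold Var
  push_cast at a5
  nlinarith [sq_nonneg (∑ v, (F v - μ))]

end Ch

variable {R : Type} [AddCommGroup R] {D : Dat R}

lemma lp_fin (s : D.S) (j : Fin 3) : fin s (D.lp j) = D.sb false := by
  simp [Dat.lp, fin, Dat.wd, hx]

/-- The Poincare inequality on the chambers, uniform in the group. -/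
theorem poin_cov [Finite Ω] (X : Ov D Ω) (y0 : Ω) (hr : ∀ y, ∃ u, X.run y0 u = y)
    (h0 : Dat.At (X.pr y0) (0, false)) (hw : (X.pr y0).2 = 0) :
    ∃ p : ℕ, ∃ _ : Fact p.Prime, 16 ≤ p ∧ ∃ K : ℝ, 0 ≤ K ∧ ∀ (Λ : Type) [Group Λ] [Fintype Λ]
      (x : Fin 3 → ZMod p → Λ), (∀ j, Hom (x j)) → (∀ φ : Λ → ℝ, ∃ μ : ℝ,
        ∑ ξ, (φ ξ - μ) ^ 2 ≤ 2 * ∑ j, ∑ i, ∑ ξ, (φ (x j i * ξ) - φ ξ) ^ 2) →
      ∀ hv [Fintype (Ω × Λ)] (F : Ω × Λ → ℝ) (D0 : ℝ), 0 ≤ D0 →
        (∀ a, ∑ ω, (F (((mkVo D l1 l2 (UU fun j => x j 1)).cov hv X).mv a ω) - F ω) ^ 2 ≤ D0) →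
        ∃ μ : ℝ, ∑ ω, (F ω - μ) ^ 2 ≤ K * D0 := by
  let _ := Fintype.ofFinite Ω
  have hs : X.st y0 = D.sb false := (X.pr_st y0).symm.trans h0.2
  choose e he0 he using fun j => X.period y0 (D.lp j) ((lp_fin _ j).trans hs.symm)
  choose w hw' using hr
  obtain ⟨p, hp, hpp⟩ := Nat.exists_infinite_primes (16 + ∑ j, e j)
  have : Fact p.Prime := ⟨hpp⟩
  have hep : ∀ j, (e j : ZMod p) ≠ 0 := fun j h => by
    have h1 := Nat.le_of_dvd (he0 j) ((ZMod.natCast_eq_zero_iff _ _).1 h)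
    have h2 := single_le_sum (f := e) (fun _ _ => Nat.zero_le _) (mem_univ j)
    omega
  let K : ℝ := 2 * ∑ j : Fin 3, ∑ _i : ZMod p, 2 ^ (e j * p * (D.lp j).length + 1)
  have hK : 0 ≤ K := by positivity
  refine ⟨p, this, by omega, ∑ y, (2 * 2 ^ ((w y).length + 1) + 2 * K), by positivity,
    fun Λ _ _ x hx hP hv inst F D0 hD0 hD => ?_⟩
  obtain rfl : inst = instFintypeProd Ω Λ := Subsingleton.elim _ _
  set u : Fin 3 → Λ := fun j => x j 1
  set T := (mkVo D l1 l2 (UU u)).cov hv X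
  have hb : ∀ v, ∑ ξ : Λ, (F (T.run (y0, ξ) v) - F (y0, ξ)) ^ 2 ≤ 2 ^ (v.length + 1) * D0 :=
    fun v => T.word_le F hD0 hD v (fun ξ => (y0, ξ)) (fun _ _ h => (Prod.mk.inj h).2)
      fun _ _ => rfl
  have hxn : ∀ j (n : ℕ), u j ^ n = x j n := fun j n => by
    induction n with
    | zero => simp [(hx j).zero]
    | succ n ih => rw [pow_succ, ih, Nat.cast_succ, hx j]
  have hst : ∀ (j : Fin 3) (m : ℕ) (q : Ω × Λ) (ξ : Λ), St l1 l2 X q 0 0 0 ξ →
      (T.run q (pw (D.lp j) m)).2 = u j ^ m * ξ := fun j m => by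
    induction m with
    | zero => exact fun q ξ h => by rw [pow_zero, one_mul]; exact h.2.2.2.2
    | succ m ih =>
      intro q ξ h
      rw [pw, Ch.run_append, ih _ _ (h.lp hv X j), pow_succ, mul_assoc]
  obtain ⟨μ, hμ⟩ := hP fun ξ => F (y0, ξ)
  have h1 : ∑ ξ, (F (y0, ξ) - μ) ^ 2 ≤ K * D0 := by
    refine hμ.trans ?_
    simp only [K, mul_assoc, sum_mul]
    refine mul_le_mul_of_nonneg_left (sum_le_sum fun j _ => sum_le_sum fun i _ => ?_) (by norm_num)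
    set k := (i * (e j : ZMod p)⁻¹).val
    have hk : x j i = u j ^ (e j * k) := by
      rw [hxn, Nat.cast_mul, ZMod.natCast_zmod_val, mul_comm, inv_mul_cancel_right₀ (hep j)]
    have a0 : ∀ ξ, T.run (y0, ξ) (pw (D.lp j) (e j * k)) = (y0, x j i * ξ) := fun ξ =>
      Prod.ext ((Vo.run_fst hv X _ _).trans (he j k))
        (hk ▸ hst j _ _ ξ ⟨h0, by simp [hw], by simp [hw], by simp [hw], rfl⟩)
    have a1 := hb (pw (D.lp j) (e j * k))
    simp only [a0, pw_length] at a1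
    refine a1.trans (mul_le_mul_of_nonneg_right (pow_le_pow_right₀ (by norm_num) ?_) hD0)
    have : k ≤ p := (ZMod.val_lt _).le
    rw [mul_assoc]
    gcongr
  refine ⟨μ, ?_⟩
  rw [Fintype.sum_prod_type, sum_mul]
  refine sum_le_sum fun y _ => ?_
  have a0 : ∀ ξ, T.run (y0, ξ) (w y) = (y, (T.run (y0, 1) (w y)).2 * ξ) := fun ξ =>
    Prod.ext ((Vo.run_fst hv X _ _).trans (hw' y)) (Vo.run_snd hv X _ _ _)
  have a1 := hb (w y)
  have a2 := sum_sq_tri (fun ξ => F (T.run (y0, ξ) (w y))) (fun ξ => F (y0, ξ)) fun _ => μ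
  rw [← shift_sum (T.run (y0, 1) (w y)).2 fun ξ => (F (y, ξ) - μ) ^ 2]
  simp only [← a0]
  linarith

end Pool.Agent.Lib.MP_972ec5_co.Sum
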