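import Pool.Agent.Lib.MP_972ec5_co.Sum.Main

/-! Indicator vectors of independent sets are cut out by walls. -/

namespace Pool.Agent.Lib.MP_972ec5_co.Sum

open Finset

variable {d g h : ℕ} (Γ : SimpleGraph (Fin d)) (m : Fin d → ℕ)

abbrev RR (m : Fin d → ℕ) (h : ℕ) : Type := ((i : Fin d) → ZMod (m i)) × ZMod h

open Classical in
noncomputable def chi (A : Set (Fin d)) : (i : Fin d) → ZMod (m i) := fun i => if i ∈ A then 1 else 0

def SS (h : ℕ) : Set (RR m h) := {x | ∃ A, Γ.IsIndepSet A ∧ x.1 = chi m A}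

def ev (h : ℕ) (i : Fin d) : RR m h →+ ZMod (m i) :=
  (Pi.evalAddMonoidHom (fun i => ZMod (m i)) i).comp (AddMonoidHom.fst _ _)

lemma chi_single (i : Fin d) : chi m {i} = Pi.single i 1 := by
  funext j
  by_cases e : j = i
  · subst e; simp [chi]
  · simp [chi, e]

noncomputable def fam (i0 : Fin d) (hg : 3 ≤ g) (hm : ∀ i, g ∣ m i) (h0 : ∀ i, 0 < m i) (h : ℕ) :
    Dat (RR m h) :=
  have m3 : ∀ i, 3 ≤ m i := fun i => hg.trans (Nat.le_of_dvd (h0 i) (hm i))
  have z : ∀ t, ((0, t) : RR m h) ∈ SS Γ m h := fun t =>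
    ⟨∅, Set.pairwise_empty _, funext fun i => by simp [chi]⟩
  have o : ∀ i, ((Pi.single i 1, 0) : RR m h) ∈ SS Γ m h := fun i =>
    ⟨{i}, Set.pairwise_singleton _ _, (chi_single m i).symm⟩
  { S := SS Γ m h
    W := Fin d ⊕ {p : Fin d × Fin d // Γ.Adj p.1 p.2}
    finW := inferInstance
    k := Sum.elim m fun _ => g
    π := fun κ => match κ with
      | .inl i => ev m h i
      | .inr p => (ZMod.castHom (hm p.1.1) (ZMod g)).toAddMonoidHom.comp (ev m h p.1.1) +
          (ZMod.castHom (hm p.1.2) (ZMod g)).toAddMonoidHom.comp (ev m h p.1.2)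
    zero_mem := z 0
    gen := by
      refine eq_top_iff.2 fun x _ => ?_
      have e : x = ∑ i, (x.1 i).val • ((Pi.single i 1, 0) : RR m h) + (0, x.2) := by
        refine Prod.ext (funext fun j => ?_) (by simp [Prod.snd_sum])
        have : NeZero (m j) := ⟨(h0 j).ne'⟩
        simp only [Prod.fst_add, Prod.fst_sum, Prod.smul_fst, add_zero, Finset.sum_apply,
          Pi.smul_apply]
        rw [sum_eq_single j (fun b _ hb => by simp [hb.symm]) (by simp)]
        simp
      rw [e]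
      exact add_mem (sum_mem fun i _ => nsmul_mem (AddSubgroup.subset_closure (o i)) _)
        (AddSubgroup.subset_closure (z _))
    two := by
      rintro (i | ⟨⟨i, j⟩, hij⟩) s ⟨A, hA, e⟩
      · change s.1 i = 0 ∨ s.1 i = 1
        rw [e, chi]
        split_ifs <;> simp
      · change ZMod.castHom (hm i) (ZMod g) (s.1 i) + ZMod.castHom (hm j) (ZMod g) (s.1 j) = 0 ∨
          ZMod.castHom (hm i) (ZMod g) (s.1 i) + ZMod.castHom (hm j) (ZMod g) (s.1 j) = 1
        rw [e, chi, chi]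
        by_cases hi : i ∈ A <;> by_cases hj : j ∈ A
        · exact absurd hij (hA hi hj hij.ne)
        all_goals simp only [hi, hj, if_true, if_false, map_one, map_zero]; simp
    three := by
      rintro (i | p)
      exacts [m3 i, hg]
    sep := fun x hx => by
      by_contra hc
      push Not at hc
      refine hx ⟨{i | x.1 i = 1}, fun i hi j hj _ hij => ?_, funext fun i => ?_⟩
      · have h1 := hc (.inr ⟨(i, j), hij⟩)
        change ZMod.castHom (hm i) (ZMod g) (x.1 i) + ZMod.castHom (hm j) (ZMod g) (x.1 j) ≠ 0 →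
          ZMod.castHom (hm i) (ZMod g) (x.1 i) + ZMod.castHom (hm j) (ZMod g) (x.1 j) = 1 at h1
        rw [show x.1 i = 1 from hi, show x.1 j = 1 from hj, map_one, map_one] at h1
        have h2 := dif_ne hg (a := 2) (b := 0) (by decide)
        exact one_ne hg (by
          have := h1 fun e => h2 (by push_cast; linear_combination e)
          linear_combination this)
      · have h1 : x.1 i ≠ 0 → x.1 i = 1 := hc (.inl i)
        rw [chi]
        split_ifs with e
        · exact e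
        · by_contra e'
          exact e (h1 e')
    κ0 := .inl i0
    s1 := (Pi.single i0 1, 0)
    s1_mem := o i0
    π_s1 := by
      change (Pi.single i0 1 : (i : Fin d) → ZMod (m i)) i0 = 1
      simp }

lemma card_SS (hm : ∀ i, 3 ≤ m i) (h : ℕ) :
    Nat.card (SS Γ m h) = Nat.card {A : Set (Fin d) // Γ.IsIndepSet A} * h := by
  have e : Function.Bijective fun p : {A : Set (Fin d) // Γ.IsIndepSet A} × ZMod h =>
      (⟨(chi m p.1.1, p.2), p.1.1, p.1.2, rfl⟩ : SS Γ m h) := by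
    refine ⟨fun p q e => ?_, fun ⟨x, A, hA, e⟩ => ⟨(⟨A, hA⟩, x.2), Subtype.ext (Prod.ext e.symm rfl)⟩⟩
    obtain ⟨e1, e2⟩ := Prod.mk.inj (congrArg Subtype.val e)
    refine Prod.ext (Subtype.ext (Set.ext fun i => ?_)) e2
    have h1 := congrFun e1 i
    have h2 := one_ne (hm i)
    by_cases a : i ∈ p.1.1 <;> by_cases b : i ∈ q.1.1 <;> simp_all [chi]
  rw [← Nat.card_eq_of_bijective _ e, Nat.card_prod, Nat.card_zmod]

theorem family {d g α h : ℕ} (Γ : SimpleGraph (Fin d)) (hd : 1 ≤ d) (hg : 3 ≤ g) (hα : 1 ≤ α)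
    (hh : 1 ≤ h) (a0 : ℕ) : ∃ a, a0 ≤ a ∧ ∃ ε : ℝ, 0 < ε ∧ ∀ n : ℕ,
    ∃ (V : Type) (_ : Finite V) (G : SimpleGraph V), n ≤ Nat.card V ∧
      Good G a (2 * α * g ^ d * h) (Nat.card {A : Set (Fin d) // Γ.IsIndepSet A} * h) ε := by
  obtain ⟨e, rfl⟩ : ∃ e, d = e + 1 := ⟨d - 1, by omega⟩
  let m : Fin (e + 1) → ℕ := Fin.cases (g * α) fun _ => g
  have hm : ∀ i, g ∣ m i := Fin.cases (dvd_mul_right _ _) fun _ => dvd_rfl
  have h0 : ∀ i, 0 < m i := Fin.cases (Nat.mul_pos (by omega) hα) fun _ => (by omega : 0 < g)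
  have : ∀ i, NeZero (m i) := fun i => ⟨(h0 i).ne'⟩
  have : NeZero h := ⟨by omega⟩
  have key := main (fam Γ m 0 hg hm h0 h) a0
  have c1 : Nat.card (RR m h) = α * g ^ (e + 1) * h := by
    rw [Nat.card_prod, Nat.card_pi, Fin.prod_univ_succ]
    simp [m]
    left; ring
  have c2 := card_SS Γ m (fun i => hg.trans (Nat.le_of_dvd (h0 i) (hm i))) h
  rw [c1, show 2 * (α * g ^ (e + 1) * h) = 2 * α * g ^ (e + 1) * h by ring] at key
  exact c2 ▸ key

end Pool.Agent.Lib.MP_972ec5_co.Sum
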