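import Pool.Agent.Lib.MP_972ec5_co.Sum.Ch

/-! The graph of a chamber system with foldings, and its links. -/

namespace Pool.Agent.Lib.MP_972ec5_co.Sum

open Finset

variable {S Ω : Type}

namespace Ch

/-- The local properties of a chamber system. -/
structure Loc (C : Ch S Ω) (n2 n3 : ℕ) : Prop where
  fold : ∀ (ω : Ω) (u u' : Wd S) (f : I → I) (J : Finset I), J.card ≤ 3 → In J (fo f u) →
    In J (fo f u') → C.run ω u = C.run ω u' → C.run ω (fo f u) = C.run ω (fo f u')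
  tri : ∀ (i j k : I) (x y z : Ω), i ≠ j → j ≠ k → i ≠ k → y ∈ C.Res {j, k} x →
    z ∈ C.Res {k, i} y → x ∈ C.Res {i, j} z → ∃ t ∈ C.Res {j} x, y ∈ C.Res {k} t
  c0 : ∀ (l : I) (x y : Ω), y ∈ C.Res {l} x → y ∈ C.Res {l}ᶜ x → y = x
  c2 : ∀ (J : Finset I) (x : Ω), J.card = 2 → (C.Res J x).ncard = n2
  c3 : ∀ (J : Finset I) (x : Ω), J.card = 3 → (C.Res J x).ncard = n3

variable (C : Ch S Ω)

/-- Vertices: residues of corank one. -/
def V : Type := {p : I × Set Ω // ∃ ω, p.2 = C.Res {p.1}ᶜ ω}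

instance [Finite Ω] : Finite C.V := Subtype.finite

def vert (i : I) (ω : Ω) : C.V := ⟨(i, C.Res {i}ᶜ ω), ω, rfl⟩

def G : SimpleGraph C.V where
  Adj x y := x.1.1 ≠ y.1.1 ∧ ∃ ω, ω ∈ x.1.2 ∧ ω ∈ y.1.2
  symm := ⟨fun _ _ ⟨h, ω, h1, h2⟩ => ⟨h.symm, ω, h2, h1⟩⟩
  loopless := ⟨fun _ h => h.1 rfl⟩

/-- The vertices of the chambers in a residue whose type lies in the type of the residue. -/
def CN (K : Finset I) (ω : Ω) : Set C.V := {x | ∃ k ∈ K, ∃ ω' ∈ C.Res K ω, x = C.vert k ω'}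

variable {C}

lemma vert_surj (x : C.V) : ∃ i ω, x = C.vert i ω := by
  obtain ⟨⟨i, A⟩, ω, h⟩ := x
  exact ⟨i, ω, Subtype.ext (Prod.ext rfl h)⟩

lemma vert_eq {i k : I} {x y : Ω} : C.vert i x = C.vert k y ↔ i = k ∧ y ∈ C.Res {i}ᶜ x := by
  constructor
  · intro h
    have h1 : i = k := congrArg (fun v : C.V => v.1.1) h
    subst h1
    have h2 : C.Res {i}ᶜ x = C.Res {i}ᶜ y := congrArg (fun v : C.V => v.1.2) h
    exact ⟨rfl, h2 ▸ res_refl _ _⟩
  · rintro ⟨rfl, h⟩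
    exact Subtype.ext (Prod.ext rfl (res_eq h).symm)

lemma vert_res {i : I} {K : Finset I} (hi : i ∉ K) {x y : Ω} (h : y ∈ C.Res K x) :
    C.vert i x = C.vert i y :=
  vert_eq.2 ⟨rfl, res_mono (fun k hk => by
    rw [mem_compl, mem_singleton]; rintro rfl; exact hi hk) h⟩

lemma adj_vert {i k : I} (h : i ≠ k) (ω : Ω) : C.G.Adj (C.vert i ω) (C.vert k ω) :=
  ⟨h, ω, res_refl _ _, res_refl _ _⟩

lemma adj_iff {i : I} {ω : Ω} {x : C.V} : C.G.Adj (C.vert i ω) x ↔ x ∈ C.CN {i}ᶜ ω := by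
  constructor
  · obtain ⟨k, y, rfl⟩ := vert_surj x
    rintro ⟨h, z, h1, h2⟩
    have h' : k ≠ i := h.symm
    exact ⟨k, by simpa using h', z, h1, vert_eq.2 ⟨rfl, h2⟩⟩
  · rintro ⟨k, hk, z, hz, rfl⟩
    rw [vert_res (by simp) hz]
    exact adj_vert (by simpa [eq_comm] using hk) z

variable {n2 n3 : ℕ}

lemma Loc.inter (L : C.Loc n2 n3) {J J' : Finset I} (hJ : J.card ≤ 3) {t : I} (ht : t ∈ J)
    (ht' : t ∈ J') {x y : Ω} (h : y ∈ C.Res J x) (h' : y ∈ C.Res J' x) : y ∈ C.Res (J ∩ J') x := by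
  obtain ⟨u, hu, rfl⟩ := h
  obtain ⟨u', hu', e⟩ := h'
  let f : I → I := fun s => if s ∈ J then s else t
  have h1 : fo f u = u := hu.fo_eq fun j hj => if_pos hj
  have h2 : In (J ∩ J') (fo f u') := hu'.fo fun j hj => by
    by_cases h : j ∈ J <;> simp [f, h, hj, ht, ht']
  have := L.fold x u' u f J hJ (h2.mono inter_subset_left) (h1.symm ▸ hu) e
  exact ⟨_, h2, by rw [this, h1]⟩

/-- Folding the middle side of a closed triangle of residues. -/
lemma Loc.fold3 (L : C.Loc n2 n3) {J A B D B' D' : Finset I} (hJ : J.card ≤ 3) (f : I → I)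
    (hA : ∀ j ∈ A, f j = j) (hB : ∀ j ∈ B, f j ∈ B') (hD : ∀ j ∈ D, f j ∈ D') (h1 : A ⊆ J)
    (h2 : B' ⊆ J) (h3 : D' ⊆ J) {x y z : Ω} (hy : y ∈ C.Res A x) (hz : z ∈ C.Res B y)
    (hx : x ∈ C.Res D z) : ∃ t ∈ C.Res B' y, x ∈ C.Res D' t := by
  obtain ⟨u, hu, rfl⟩ := hy
  obtain ⟨v, hv, rfl⟩ := hz
  obtain ⟨w, hw, e⟩ := hx
  have e1 : fo f (u ++ v ++ w) = u ++ fo f v ++ fo f w := by
    rw [fo_append, fo_append, hu.fo_eq hA]
  have := L.fold x (u ++ v ++ w) [] f J hJ (by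
    rw [e1]
    exact in_append.2 ⟨in_append.2 ⟨hu.mono h1, (hv.fo hB).mono h2⟩, (hw.fo hD).mono h3⟩)
    (In.nil J) (by rw [run_append, run_append, e]; rfl)
  rw [e1, run_append, run_append] at this
  exact ⟨_, ⟨_, hv.fo hB, rfl⟩, _, hw.fo hD, this⟩

lemma fourth : ∀ i j k : I, i ≠ j → j ≠ k → i ≠ k → ∃ l : I, l ≠ i ∧ l ≠ j ∧ l ≠ k ∧
    ({i, j} : Finset I)ᶜ = {k, l} ∧ ({i, j, k} : Finset I)ᶜ = {l} := by decide

lemma Loc.cn2 (L : C.Loc n2 n3) {i j : I} (hij : i ≠ j) (ω : Ω) :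
    C.G.commonNeighbors (C.vert i ω) (C.vert j ω) = C.CN {i, j}ᶜ ω := by
  ext x
  rw [SimpleGraph.mem_commonNeighbors, adj_iff, adj_iff]
  constructor
  · rintro ⟨⟨k, hk, y, hy, rfl⟩, k', hk', z, hz, e⟩
    obtain ⟨rfl, e'⟩ := vert_eq.1 e
    have hik : i ≠ k := by simpa [eq_comm] using hk
    have hjk : j ≠ k := by simpa [eq_comm] using hk'
    obtain ⟨l, h1, h2, h3, -, -⟩ := fourth i j k hij hjk hik
    have c : ∀ t : I, l ≠ t → ∀ s ∈ ({t}ᶜ : Finset I),
        (if s = i then l else s) ∈ ({i, t}ᶜ : Finset I) := fun t ht s hs => by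
      by_cases h : s = i
      · simp [h, h1, ht]
      · simpa [h] using hs
    obtain ⟨t, ht, hx⟩ := L.fold3 (J := {i}ᶜ) (A := {i}ᶜ) (B := {k}ᶜ) (D := {j}ᶜ)
      (by rw [card_compl]; simp) (fun s => if s = i then l else s)
      (fun s hs => if_neg (by simpa using hs)) (c k h3) (c j h2) subset_rfl
      (compl_subset_compl.2 (by simp)) (compl_subset_compl.2 (by simp)) hy e' (res_symm hz)
    exact ⟨k, by simp [hik.symm, hjk.symm], t, res_symm hx, vert_res (by simp) ht⟩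
  · rintro ⟨k, hk, y, hy, rfl⟩
    simp only [mem_compl, mem_insert, mem_singleton, not_or] at hk
    exact ⟨⟨k, by simp [hk.1], y, res_mono (compl_subset_compl.2 (by simp)) hy, rfl⟩,
      ⟨k, by simp [hk.2], y, res_mono (compl_subset_compl.2 (by simp)) hy, rfl⟩⟩

lemma Loc.cn3 (L : C.Loc n2 n3) {i j k : I} (hij : i ≠ j) (hjk : j ≠ k) (hik : i ≠ k) (ω : Ω) :
    C.G.commonNeighbors (C.vert i ω) (C.vert j ω) ∩ C.G.neighborSet (C.vert k ω) =
      C.CN {i, j, k}ᶜ ω := by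
  obtain ⟨l, h1, h2, h3, h4, h5⟩ := fourth i j k hij hjk hik
  obtain ⟨l', g1, g2, g3, g4, -⟩ := fourth i k j hik hjk.symm hij
  obtain rfl : l' = l := by
    have : l' ∈ ({i, j, k} : Finset I)ᶜ := by simp [g1, g2, g3]
    rwa [h5, mem_singleton] at this
  ext x
  constructor
  · rintro ⟨hx, hk⟩
    have hx' : x ∈ C.G.commonNeighbors (C.vert i ω) (C.vert k ω) := ⟨hx.1, hk⟩
    rw [L.cn2 hij, h4] at hx
    rw [L.cn2 hik, g4] at hx'
    obtain ⟨m, hm, y, hy, rfl⟩ := hx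
    obtain ⟨m', hm', z, hz, e⟩ := hx'
    obtain ⟨rfl, e'⟩ := vert_eq.1 e
    obtain rfl : m = l' := by
      simp only [mem_insert, mem_singleton] at hm hm'
      rcases hm with rfl | h
      · rcases hm' with h | h
        · exact absurd h.symm hjk
        · exact h
      · exact h
    obtain ⟨t, ht, hx⟩ := L.fold3 (J := {i}ᶜ) (B' := {k, j}) (D' := {j, m})
      (by rw [card_compl]; simp) (fun s => if s = i then j else s)
      (fun s hs => if_neg (by rintro rfl; simp [hik, h1.symm] at hs))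
      (fun s hs => by
        by_cases h : s = i
        · simp [h]
        · have : s ∈ ({i, j, k} : Finset I) := by
            rw [← compl_compl ({i, j, k} : Finset I), h5]; exact hs
          simpa [h, or_comm] using this)
      (fun s hs => by rw [if_neg (by rintro rfl; simp [hij, h1.symm] at hs)]; exact hs)
      (by simp [subset_iff, hik.symm, h1]) (by simp [subset_iff, hik.symm, hij.symm])
      (by simp [subset_iff, hij.symm, h1]) hy e' (res_symm hz)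
    obtain ⟨q, hq, hy'⟩ := L.tri j m k ω y t h2.symm h3 hjk (by rwa [pair_comm]) ht hx
    rw [h5]
    exact ⟨m, by simp, q, hq, (vert_res (by simp [h3]) hy').symm⟩
  · rintro ⟨m, hm, y, hy, rfl⟩
    simp only [mem_compl, mem_insert, mem_singleton, not_or] at hm
    refine ⟨⟨adj_iff.2 ⟨m, by simp [hm.1], y, ?_, rfl⟩, adj_iff.2 ⟨m, by simp [hm.2.1], y, ?_, rfl⟩⟩,
      adj_iff.2 ⟨m, by simp [hm.2.2], y, ?_, rfl⟩⟩ <;>
    exact res_mono (compl_subset_compl.2 (by simp)) hy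

lemma Loc.card_cn [Finite Ω] (L : C.Loc n2 n3) {K : Finset I} (hK : K.card ≤ 3) (ω : Ω) {m : ℕ}
    (hm : ∀ k ∈ K, ∀ y, (C.Res (K.erase k) y).ncard = m) :
    (C.CN K ω).ncard * m = K.card * (C.Res K ω).ncard := by
  classical
  let A : Finset (I × Ω) := K ×ˢ (C.Res K ω).toFinite.toFinset
  let φ : I × Ω → C.V := fun p => C.vert p.1 p.2
  have h1 : C.CN K ω = ↑(A.image φ) := by
    ext x
    simp only [CN, A, φ, Set.mem_ofPred_eq, coe_image, coe_product, Set.mem_image, Set.mem_prod,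
      mem_coe, Set.Finite.mem_toFinset, Prod.exists]
    constructor
    · rintro ⟨k, hk, y, hy, rfl⟩; exact ⟨k, y, ⟨hk, hy⟩, rfl⟩
    · rintro ⟨k, y, ⟨hk, hy⟩, rfl⟩; exact ⟨k, hk, y, hy, rfl⟩
  have h2 : A.card = K.card * (C.Res K ω).ncard := by
    rw [card_product, Set.ncard_eq_toFinset_card]
  rw [h1, Set.ncard_coe_finset, ← h2, card_eq_sum_card_image φ A, sum_const_nat]
  intro x hx
  obtain ⟨⟨k, y⟩, hp, rfl⟩ := mem_image.1 hx
  obtain ⟨hk, hy⟩ := mem_product.1 hp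
  rw [Set.Finite.mem_toFinset] at hy
  rw [← hm k hk y, Set.ncard_eq_toFinset_card]
  symm
  refine card_bij (fun z _ => (k, z)) (fun z hz => ?_) (fun _ _ _ _ h => (Prod.mk.inj h).2)
    (fun ⟨k', z⟩ hz => ?_)
  · rw [Set.Finite.mem_toFinset] at hz
    refine mem_filter.2 ⟨mem_product.2 ⟨hk, ?_⟩, (vert_res (notMem_erase k K) hz).symm⟩
    rw [Set.Finite.mem_toFinset]
    exact res_trans hy (res_mono (erase_subset _ _) hz)
  · obtain ⟨h3, h4⟩ := mem_filter.1 hz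
    obtain ⟨rfl, h5⟩ := vert_eq.1 h4.symm
    have h6 : z ∈ C.Res K y := res_trans (res_symm hy)
      ((Set.Finite.mem_toFinset _).1 (mem_product.1 h3).2)
    refine ⟨z, (Set.Finite.mem_toFinset _).2 ?_, rfl⟩
    rcases (K.erase k).eq_empty_or_nonempty with e | ⟨t, ht⟩
    · have : K = {k} := by
        rcases erase_eq_empty_iff K k |>.1 e with h | h
        · simp [h] at hk
        · exact h
      rw [L.c0 k y z (this ▸ h6) h5]
      exact res_refl _ _
    · have := L.inter hK (mem_of_mem_erase ht) (by simpa using ne_of_mem_erase ht) h6 h5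
      rwa [← sdiff_eq_inter_compl, sdiff_singleton_eq_erase] at this

lemma conn_cn {K : Finset I} (hK : 2 ≤ K.card) (ω : Ω) :
    (C.G.induce (C.CN K ω)).Preconnected := by
  have step : ∀ (y : Ω) (hy : y ∈ C.Res K ω) (k) (hk : k ∈ K) (l) (hl : l ∈ K),
      (C.G.induce (C.CN K ω)).Reachable ⟨C.vert k y, k, hk, y, hy, rfl⟩
        ⟨C.vert l y, l, hl, y, hy, rfl⟩ := by
    intro y hy k hk l hl
    by_cases h : k = l
    · subst h; rfl
    · exact SimpleGraph.Adj.reachable (adj_vert h y)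
  have key : ∀ (u : Wd S) (hu : In K u) (y : Ω) (hy : y ∈ C.Res K ω) (k) (hk : k ∈ K),
      (C.G.induce (C.CN K ω)).Reachable ⟨C.vert k y, k, hk, y, hy, rfl⟩
        ⟨C.vert k (C.run y u), k, hk, _, res_trans hy ⟨u, hu, rfl⟩, rfl⟩ := by
    intro u
    induction u with
    | nil => intro _ y hy k hk; rfl
    | cons a u ih =>
      intro hu y hy k hk
      have hy' := res_trans hy (res_mv (in_cons.1 hu).1 y)
      refine SimpleGraph.Reachable.trans ?_ (ih (in_cons.1 hu).2 _ hy' k hk)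
      obtain ⟨l, hl, hla⟩ := exists_mem_ne (by omega : 1 < K.card) a.1
      have e : C.vert l y = C.vert l (C.mv a y) :=
        vert_res (K := {a.1}) (by simpa using hla) (res_mv (mem_singleton_self _) y)
      refine (step y hy k hk l hl).trans (SimpleGraph.Reachable.trans ?_ (step _ hy' l hl k hk))
      exact (Subtype.ext e : (⟨C.vert l y, l, hl, y, hy, rfl⟩ : C.CN K ω) = ⟨_, _⟩) ▸
        SimpleGraph.Reachable.refl _
  rintro ⟨_, k, hk, y, ⟨u, hu, rfl⟩, rfl⟩ ⟨_, l, hl, z, ⟨v, hv, rfl⟩, rfl⟩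
  exact (key u hu ω (res_refl _ _) k hk).symm.trans
    ((step ω (res_refl _ _) k hk l hl).trans (key v hv ω (res_refl _ _) l hl))

lemma reg_induce {W : Type} (H : SimpleGraph W) (T : Set W) (d : ℕ)
    (h : ∀ x ∈ T, (T ∩ H.neighborSet x).ncard = d) : Reg (H.induce T) d := by
  intro x
  rw [← h x.1 x.2, ← Set.ncard_image_of_injective _ Subtype.val_injective]
  congr 1
  ext y
  simp only [Set.mem_image, SimpleGraph.mem_neighborSet, Set.mem_inter_iff]
  exact ⟨fun ⟨z, hz, e⟩ => e ▸ ⟨z.2, hz⟩, fun ⟨h1, h2⟩ => ⟨⟨y, h1⟩, h2, rfl⟩⟩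

section
variable [Finite Ω] {a b : ℕ}

lemma Loc.card1 (L : C.Loc n2 n3) {K : Finset I} (hK : K.card = 1) (ω : Ω) :
    (C.CN K ω).ncard = Nat.card S := by
  obtain ⟨k, rfl⟩ := card_eq_one.1 hK
  have := L.card_cn (K := {k}) (by simp) ω (m := 1) (fun l hl y => by
    rw [mem_singleton.1 hl, erase_singleton, res_empty, Set.ncard_singleton])
  simpa [card_one] using this

lemma Loc.card2 (L : C.Loc n2 n3) (h0 : 0 < Nat.card S) (hb : b * Nat.card S = 2 * n2)
    {K : Finset I} (hK : K.card = 2) (ω : Ω) : (C.CN K ω).ncard = b := by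
  have := L.card_cn (K := K) (by omega) ω (m := Nat.card S) (fun l hl y => by
    obtain ⟨k, hk⟩ := card_eq_one.1 (show (K.erase l).card = 1 by rw [card_erase_of_mem hl, hK])
    rw [hk, card_one])
  rw [hK, L.c2 K ω hK, ← hb] at this
  exact Nat.eq_of_mul_eq_mul_right h0 this

lemma Loc.card3 (L : C.Loc n2 n3) {K : Finset I} (hK : K.card = 3) (ω : Ω) :
    (C.CN K ω).ncard * n2 = 3 * n3 := by
  have := L.card_cn (K := K) (by omega) ω (m := n2) (fun l hl y =>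
    L.c2 _ y (by rw [card_erase_of_mem hl, hK]))
  rwa [hK, L.c3 K ω hK] at this

lemma Loc.nice_link (L : C.Loc n2 n3) (h0 : 0 < Nat.card S) (h2 : 0 < n2)
    (hb : b * Nat.card S = 2 * n2) (ha : a * n2 = 3 * n3) (v : C.V) :
    Nice (C.G.induce (C.G.neighborSet v)) a b := by
  obtain ⟨i, ω, rfl⟩ := vert_surj v
  have e : C.G.neighborSet (C.vert i ω) = C.CN {i}ᶜ ω := Set.ext fun _ => adj_iff
  have hK : ({i}ᶜ : Finset I).card = 3 := by rw [card_compl]; simp
  refine ⟨e ▸ conn_cn (by omega) ω, reg_induce _ _ _ fun x hx => ?_, ?_⟩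
  · obtain ⟨k, hk, y, hy, rfl⟩ := adj_iff.1 hx
    have hik : i ≠ k := by simpa [eq_comm] using hk
    rw [vert_res (by simp) hy]
    change (C.G.commonNeighbors _ _).ncard = b
    rw [L.cn2 hik]
    exact L.card2 h0 hb (by rw [card_compl, card_pair hik]; simp) y
  · rw [e, Nat.card_coe_set_eq]
    exact Nat.eq_of_mul_eq_mul_right h2 ((L.card3 hK ω).trans ha.symm)

lemma Loc.nice_edge (L : C.Loc n2 n3) (h0 : 0 < Nat.card S) (hb : b * Nat.card S = 2 * n2)
    {u v : C.V} (h : C.G.Adj u v) :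
    Nice (C.G.induce (C.G.commonNeighbors u v)) b (Nat.card S) := by
  obtain ⟨i, x, rfl⟩ := vert_surj u
  obtain ⟨j, hj, ω, hω, rfl⟩ := adj_iff.1 h
  have hij : i ≠ j := by simpa [eq_comm] using hj
  rw [vert_res (by simp) hω]
  have hK : ({i, j}ᶜ : Finset I).card = 2 := by rw [card_compl, card_pair hij]; simp
  refine ⟨L.cn2 hij ω ▸ conn_cn (by omega) ω, reg_induce _ _ _ fun x hx => ?_, ?_⟩
  · rw [L.cn2 hij] at hx
    obtain ⟨k, hk, y, hy, rfl⟩ := hx
    simp only [mem_compl, mem_insert, mem_singleton, not_or] at hk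
    rw [vert_res (by simp) hy, vert_res (i := j) (by simp) hy,
      L.cn3 hij (Ne.symm hk.2) (Ne.symm hk.1)]
    obtain ⟨l, -, -, -, -, h5⟩ := fourth i j k hij (Ne.symm hk.2) (Ne.symm hk.1)
    exact L.card1 (by rw [h5]; simp) y
  · rw [L.cn2 hij, Nat.card_coe_set_eq]
    exact L.card2 h0 hb hK ω

end

end Ch

end Pool.Agent.Lib.MP_972ec5_co.Sum
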