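import Pool.Agent.Lib.MP_972ec5_co.Sum.Exp

/-! Local and global expanders from a set cut out by walls. -/

namespace Pool.Agent.Lib.MP_972ec5_co.Sum

open Finset

variable {R : Type} [AddCommGroup R] (D : Dat R)

def Dat.base : D.X1 := (⟨0, by simpa using D.zero_mem⟩, 0)

lemma base_at : Dat.At D.base (0, false) :=
  ⟨funext fun i => by simp [Dat.Z, Dat.base, cs], Subtype.ext (by simp [Dat.C0, Dat.base, Dat.sb])⟩

def UN (N : ℕ) (a _b : ZMod 2) : Multiplicative (ZMod N) :=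
  if a = 0 then 1 else Multiplicative.ofAdd 1

/-- The cyclic cover that enlarges the vertex links. -/
def XN (N : ℕ) : Ov D (D.X1 × Multiplicative (ZMod N)) :=
  (mkVo D mu mu (UN N)).cov (fun _ => far_mu _ _ (by simp)) D.one

lemma XN_r2 (N : ℕ) : (XN D N).R2 := Vo.cov_r2 _ _ (far_mu _) D.one_r2

lemma big [Finite R] (N : ℕ) [NeZero N] :
    N ≤ (((XN D N).sym (D.base, 1)).Res {3}ᶜ ((XN D N).y0 (D.base, 1))).ncard := by
  have hst : ∀ (m : ℕ) (q : D.X1 × Multiplicative (ZMod N)) (ξ : Multiplicative (ZMod N)),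
      St mu mu D.one q 0 0 0 ξ →
      ((XN D N).run q (pw D.hh m)).2 = (Multiplicative.ofAdd 1)⁻¹ ^ m * ξ := fun m => by
    induction m with
    | zero => exact fun q ξ h => by rw [pow_zero, one_mul]; exact h.2.2.2.2
    | succ m ih =>
      intro q ξ h
      rw [pw, Ch.run_append]
      refine (ih _ _ (h.hh rfl _ D.one)).trans ?_
      rw [pow_succ, mul_assoc]
      rfl
  have h := Set.ncard_le_ncard_of_injOn (s := (Set.univ : Set (ZMod N)))
    (t := ((XN D N).sym (D.base, 1)).Res {3}ᶜ ((XN D N).y0 (D.base, 1)))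
    (fun t => ((XN D N).sym (D.base, 1)).run ((XN D N).y0 (D.base, 1)) (pw D.hh t.val))
    (fun t _ => ⟨_, pw_in hh_in _, rfl⟩) (fun t _ t' _ e => by
      have e1 := congrArg (fun φ : (XN D N).Y (D.base, 1) => (φ.1 (id, ⟨(D.base, 1), rfl⟩)).2) e
      simp only [Ov.sym_run, fo_id] at e1
      have b : St mu mu D.one (D.base, (1 : Multiplicative (ZMod N))) 0 0 0 1 :=
        ⟨base_at D, rfl, rfl, rfl, rfl⟩
      have e2 := (hst _ _ _ b).symm.trans (e1.trans (hst _ _ _ b))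
      rw [mul_one, mul_one, inv_pow, inv_pow, inv_inj, ← ofAdd_nsmul, ← ofAdd_nsmul] at e2
      simpa using e2) (Set.toFinite _)
  rwa [Set.ncard_univ, Nat.card_zmod] at h

theorem main [Finite R] (a0 : ℕ) : ∃ a, a0 ≤ a ∧ ∃ ε : ℝ, 0 < ε ∧ ∀ n : ℕ,
    ∃ (V : Type) (_ : Finite V) (G : SimpleGraph V),
      n ≤ Nat.card V ∧ Good G a (2 * Nat.card R) (Nat.card D.S) ε := by
  have hR : 0 < Nat.card R := Nat.card_pos
  have : Nonempty D.S := ⟨⟨0, D.zero_mem⟩⟩
  have hS : 0 < Nat.card D.S := Nat.card_pos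
  let _ := Fintype.ofFinite D.S
  set n2 := Nat.card R * Nat.card D.S with hn2
  have h2 : 0 < n2 := Nat.mul_pos hR hS
  set N := n2 * (a0 + 2) with hN
  have : NeZero N := ⟨by positivity⟩
  have hbig := big D N
  let X := XN D N
  let x0 : D.X1 × Multiplicative (ZMod N) := (D.base, 1)
  set n3 := ((X.sym x0).Res {3}ᶜ (X.y0 x0)).ncard
  have hv : ∀ {Λ : Type} (U : ZMod 2 → ZMod 2 → Λ) (j : I), (mkVo D l1 l2 U).Far {j} :=
    fun U j => far_l U _ (by simp)
  have hL : ∀ (Λ : Type) [Group Λ] [Finite Λ] (U : ZMod 2 → ZMod 2 → Λ),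
      ((mkVo D l1 l2 U).cov (hv U) (X.sym x0)).Loc n2 n3 :=
    fun Λ _ _ U => X.loc x0 (hv U) (XN_r2 D N) (far_l U)
  obtain ⟨a, ha⟩ : ∃ a, a * n2 = 3 * n3 :=
    ⟨_, (hL Unit fun _ _ => ()).card3 (K := {0}ᶜ) (by decide) (X.y0 x0, ())⟩
  have ha0 : a0 + 2 ≤ a := by
    refine Nat.le_of_mul_le_mul_right ?_ h2
    rw [ha, mul_comm]
    omega
  have h3 : 0 < n3 := lt_of_lt_of_le (NeZero.pos N) hbig
  have hb : 2 * Nat.card R * Nat.card D.S = 2 * n2 := by rw [hn2, mul_assoc]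
  obtain ⟨p, _, hp, K, hK, hY⟩ := poin_cov (X.sym x0) (X.y0 x0) (X.sym_reach x0) (base_at D) rfl
  have hR' : (0 : ℝ) < (2 * Nat.card R : ℕ) := by positivity
  have ha' : (0 : ℝ) < a := by exact_mod_cast (by omega : 0 < a)
  have h3' : (0 : ℝ) < n3 := by exact_mod_cast h3
  refine ⟨a, by omega, min (1 / ((16 + 16 * K * (2 * Fintype.card D.S + 2)) * n3))
    (min (1 / (a * 2 ^ (a + 1))) (1 / ((2 * Nat.card R : ℕ) * 2 ^ (2 * Nat.card R + 1)))),
    by positivity, fun n => ?_⟩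
  obtain ⟨Λ, _, _, x, hn, hx, hP⟩ := exists_group p hp (n3 * (n + 2))
  have L := hL Λ (UU fun j => x j 1)
  set T := (mkVo D l1 l2 (UU fun j => x j 1)).cov (hv _) (X.sym x0)
  let _ := Fintype.ofFinite (X.Y x0 × Λ)
  let _ := Fintype.ofFinite T.V
  have hc : n + 2 ≤ Fintype.card T.V := by
    have a1 := L.sum_vert 0 (fun _ => 1) fun _ => zero_le_one
    have a2 := Fintype.card_le_of_injective (fun ξ : Λ => (X.y0 x0, ξ))
      fun _ _ h => (Prod.mk.inj h).2
    simp only [sum_const, card_univ, nsmul_eq_mul, mul_one] at a1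
    have a3 : Fintype.card (X.Y x0 × Λ) ≤ n3 * Fintype.card T.V := by exact_mod_cast a1
    exact Nat.le_of_mul_le_mul_left (hn.trans (a2.trans a3)) h3
  have hG := L.poin (hY Λ x hx hP (hv _))
  have hl := L.nice_link hS h2 hb ha
  have reg : Reg T.G a := fun v => (hl v).2.2
  refine ⟨T.V, inferInstance, T.G, by rw [Nat.card_eq_fintype_card]; omega,
    ⟨reg, ?_⟩, fun v => ⟨(hl v).2.1, ?_⟩, fun u v h => ⟨(L.nice_edge hS hb h).2.1, ?_⟩⟩
  · exact (lam2_le T.G reg (by positivity) hG (by omega)).trans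
      (sub_le_sub_left (min_le_left _ _) _)
  · exact ((hl v).gap (by omega)).trans
      (sub_le_sub_left ((min_le_right _ _).trans (min_le_left _ _)) _)
  · exact ((L.nice_edge hS hb h).gap (by omega)).trans
      (sub_le_sub_left ((min_le_right _ _).trans (min_le_right _ _)) _)

end Pool.Agent.Lib.MP_972ec5_co.Sum
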