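import Pool.Agent.Lib.MP_972ec5_co.Sum.Loc

/-! The two sides of a diameter of a `2k`-gon. -/

namespace Pool.Agent.Lib.MP_972ec5_co.Sum

variable {k : ℕ}

/-- The side of the diameter `v` on which the vertex `2 x - σ` of the `2k`-gon lies. -/
def par (v x σ : ZMod k) : ZMod 2 :=
  if 2 * x.val < σ.val + v.val ∨ k + σ.val + v.val ≤ 2 * x.val then 1 else 0

lemma val_add' [NeZero k] (a b : ZMod k) :
    (a + b).val = a.val + b.val ∨ (a + b).val + k = a.val + b.val := by
  rcases lt_or_ge (a.val + b.val) k with h | h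
  · exact Or.inl (ZMod.val_add_of_lt h)
  · exact Or.inr (ZMod.val_add_val_of_le h).symm

lemma val_one' (hk : 3 ≤ k) : (1 : ZMod k).val = 1 := by
  have : Fact (1 < k) := ⟨by omega⟩
  exact ZMod.val_one k

lemma one_ne (hk : 3 ≤ k) : (1 : ZMod k) ≠ 0 := fun h => by
  have := val_one' hk
  rw [h, ZMod.val_zero] at this
  omega

lemma ite_flip {P Q E : Prop} [Decidable P] [Decidable Q] [Decidable E] (h : E ↔ ¬ (P ↔ Q)) :
    (if P then (1 : ZMod 2) else 0) = (if Q then 1 else 0) + if E then 1 else 0 := by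
  by_cases hP : P <;> by_cases hQ : Q <;> simp [h, hP, hQ]
  rfl

lemma par_up (hk : 3 ≤ k) (v x : ZMod k) :
    par v (x + 1) 1 = par v x 0 + if v = x + (x + 1) then 1 else 0 := by
  have : NeZero k := ⟨by omega⟩
  have h1 := val_add' x 1
  have h2 := val_add' x (x + 1)
  have h3 := ZMod.val_lt x
  have h4 := ZMod.val_lt v
  have h5 := ZMod.val_lt (x + 1)
  have h6 := ZMod.val_lt (x + (x + 1))
  rw [val_one' hk] at h1
  refine ite_flip ?_
  rw [← (ZMod.val_injective k).eq_iff, val_one' hk, ZMod.val_zero]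
  omega

lemma par_side (hk : 3 ≤ k) (v x : ZMod k) :
    par v x 1 = par v x 0 + if v = x + x then 1 else 0 := by
  have : NeZero k := ⟨by omega⟩
  have h2 := val_add' x x
  have h3 := ZMod.val_lt x
  have h4 := ZMod.val_lt v
  have h6 := ZMod.val_lt (x + x)
  refine ite_flip ?_
  rw [← (ZMod.val_injective k).eq_iff, val_one' hk, ZMod.val_zero]
  omega

lemma add_flip {a b c : ZMod 2} (h : a = b + c) : b = a + c := by
  revert a b c; decide

/-- A move along the first coordinate. -/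
lemma par_mv1 (hk : 3 ≤ k) (v x : ZMod k) {σ σ' : ZMod k} (h : σ = 0 ∨ σ = 1)
    (h' : σ' = 0 ∨ σ' = 1) :
    par v (x + (σ' - σ)) σ' = par v x σ + if σ ≠ σ' ∧ v = x + (x + (σ' - σ)) then 1 else 0 := by
  have h1 := one_ne hk
  rcases h with rfl | rfl <;> rcases h' with rfl | rfl
  · simp
  · simpa [h1.symm] using par_up hk v x
  · have := add_flip (par_up hk v (x + (0 - 1)))
    rw [show x + (0 - 1) + 1 = x by ring, add_comm (x + (0 - 1)) x] at this
    simpa [h1] using this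
  · simp

/-- A move along the second coordinate. -/
lemma par_mv2 (hk : 3 ≤ k) (v x : ZMod k) {σ σ' : ZMod k} (h : σ = 0 ∨ σ = 1)
    (h' : σ' = 0 ∨ σ' = 1) :
    par v x σ' = par v x σ + if σ ≠ σ' ∧ v = x + x then 1 else 0 := by
  have h1 := one_ne hk
  rcases h with rfl | rfl <;> rcases h' with rfl | rfl
  · simp
  · simpa [h1.symm] using par_side hk v x
  · simpa [h1] using add_flip (par_side hk v x)
  · simp

lemma par_key (hk : 3 ≤ k) {ρ : ZMod k} (h0 : ρ ≠ 0) (h1 : ρ ≠ 1) :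
    ∃ η : ZMod k, η ≠ 0 ∧ η + (ρ + ρ) ≠ 1 ∧ ∀ σ σ' : ZMod k, (σ = 0 ∨ σ = 1) → (σ' = 0 ∨ σ' = 1) →
      par η (σ - ρ) σ ≠ par η 0 σ' := by
  have : NeZero k := ⟨by omega⟩
  have a0 : ρ.val ≠ 0 := fun h => h0 ((ZMod.val_eq_zero ρ).1 h)
  have a1 : ρ.val ≠ 1 := fun h => h1 (ZMod.val_injective k (h.trans (val_one' hk).symm))
  have a2 := ZMod.val_lt ρ
  have a3 := val_add' ρ ρ
  have a4 := ZMod.val_lt (ρ + ρ)
  have main : ∀ η : ZMod k, 1 ≤ η.val → η.val + 2 * ρ.val ≤ 2 * k → k + 1 < η.val + 2 * ρ.val →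
      η.val + 2 * ρ.val ≠ k + 1 ∧ η.val + 2 * ρ.val ≠ 2 * k + 1 →
      η ≠ 0 ∧ η + (ρ + ρ) ≠ 1 ∧ ∀ σ σ' : ZMod k, (σ = 0 ∨ σ = 1) → (σ' = 0 ∨ σ' = 1) →
      par η (σ - ρ) σ ≠ par η 0 σ' := by
    intro η b1 b2 b3 b4
    refine ⟨fun h => by rw [h, ZMod.val_zero] at b1; omega, fun h => ?_, fun σ σ' hσ _ => ?_⟩
    · have := val_add' η (ρ + ρ)
      rw [h, val_one' hk] at this
      omega
    · have c1 : σ.val ≤ 1 := by
        rcases hσ with rfl | rfl
        · simp
        · exact (val_one' hk).le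
      have c2 := val_add' (σ - ρ) ρ
      rw [sub_add_cancel] at c2
      unfold par
      rw [if_neg (by omega), if_pos (by rw [ZMod.val_zero]; omega)]
      exact zero_ne_one
  by_cases h : 2 * ρ.val ≤ k + 1
  · have e : (-1 : ZMod k).val = k - 1 := by
      have := val_add' (-1 : ZMod k) 1
      rw [neg_add_cancel, ZMod.val_zero, val_one' hk] at this
      omega
    exact ⟨-1, main _ (by omega) (by omega) (by omega) (by omega)⟩
  · have e := val_one' hk
    exact ⟨1, main _ (by omega) (by omega) (by omega) (by omega)⟩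

end Pool.Agent.Lib.MP_972ec5_co.Sum
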