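import Pool.Agent.Lib.MP_972ec5_co.Sum.Base

/-! Chamber systems over the wall cover, voltages and symmetrisation. -/

namespace Pool.Agent.Lib.MP_972ec5_co.Sum

open Finset

variable {R : Type} [AddCommGroup R] {D : Dat R}

/-- A chamber system with a projection to the wall cover. -/
structure Ov (D : Dat R) (Ω : Type) extends Ch D.S Ω where
  pr : Ω → D.X1
  pr_mv : ∀ a ω, pr (mv a ω) = D.m1 a (pr ω)
  pr_st : ∀ ω, D.C0.st (pr ω).1 = st ω

namespace Ov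

variable {Ω : Type} (X : Ov D Ω)

lemma pr_run (ω : Ω) (u : Wd D.S) : X.pr (X.run ω u) = D.C1.run (X.pr ω) u := by
  induction u generalizing ω with
  | nil => rfl
  | cons a u ih => rw [Ch.run_cons, ih, X.pr_mv]; rfl

lemma pr_run0 (ω : Ω) (u : Wd D.S) : (X.pr (X.run ω u)).1 = D.C0.run (X.pr ω).1 u := by
  rw [pr_run, D.run1_fst]

lemma pr_res {J : Finset I} {x y : Ω} (h : y ∈ X.Res J x) : X.pr y ∈ D.C1.Res J (X.pr x) :=
  let ⟨u, hu, e⟩ := h; ⟨u, hu, by rw [← e, pr_run]⟩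

/-- Residues of rank two embed in the sum complex. -/
def R2 : Prop := ∀ (J : Finset I) (ω : Ω) (u u' : Wd D.S), J.card ≤ 2 → In J u → In J u' →
  D.C0.run (X.pr ω).1 u = D.C0.run (X.pr ω).1 u' → X.run ω u = X.run ω u'

variable {X}

lemma R2.inj (h : X.R2) {J : Finset I} (hJ : J.card ≤ 2) {ω x y : Ω} (hx : x ∈ X.Res J ω)
    (hy : y ∈ X.Res J ω) (e : (X.pr x).1 = (X.pr y).1) : x = y := by
  obtain ⟨u, hu, rfl⟩ := hx
  obtain ⟨u', hu', rfl⟩ := hy
  exact h J ω u u' hJ hu hu' (by rwa [pr_run0, pr_run0] at e)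

lemma c0 (l : I) (x y : Ω) (h : y ∈ X.Res {l} x) (h' : y ∈ X.Res {l}ᶜ x) : y = x := by
  have e : (X.pr y).1 = (X.pr x).1 := Subtype.ext (funext fun i => by
    by_cases hi : i = l
    · exact D.res0 (D.res1 (X.pr_res h')) (by simp [hi])
    · exact D.res0 (D.res1 (X.pr_res h)) (by simp [hi]))
  rw [Ch.res_one h, ← X.pr_st, e, X.pr_st, X.mv_st]

lemma R2.tri (h : X.R2) (i j k : I) (x y z : Ω) (hij : i ≠ j) (hjk : j ≠ k) (hik : i ≠ k)
    (hy : y ∈ X.Res {j, k} x) (hz : z ∈ X.Res {k, i} y) (hx : x ∈ X.Res {i, j} z) :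
    ∃ t ∈ X.Res {j} x, y ∈ X.Res {k} t := by
  have hS := D.tri_one hij hjk hik (X.pr_res hy) (X.pr_res hz) (X.pr_res hx)
  have m1 : X.mv (j, ⟨_, hS⟩) x ∈ X.Res {j} x := Ch.res_mv (mem_singleton_self j) x
  refine ⟨_, m1, ?_⟩
  have m2 : X.mv (k, X.st y) (X.mv (j, ⟨_, hS⟩) x) ∈ X.Res {k} (X.mv (j, ⟨_, hS⟩) x) :=
    Ch.res_mv (mem_singleton_self k) _
  refine Set.mem_of_eq_of_mem (h.inj (card_pair hjk).le (Ch.res_trans (Ch.res_mono (by simp) m1)
    (Ch.res_mono (by simp) m2)) hy ?_).symm m2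
  rw [X.pr_mv, X.pr_mv]
  refine D.ext0 k (fun t ht => ?_) ((D.sum_m0 _ _).trans (congrArg Subtype.val (X.pr_st y).symm))
  by_cases htj : t = j
  · simp [Dat.m1, Dat.m0, htj, hjk]
  · refine Eq.trans ?_ (D.res0 (D.res1 (X.pr_res hy)) (i := t) (by simp [ht, htj])).symm
    simp [Dat.m1, Dat.m0, htj, ht]

lemma R2.c2 (h : X.R2) (J : Finset I) (x : Ω) (hJ : J.card = 2) :
    (X.Res J x).ncard = Nat.card R * Nat.card D.S := by
  obtain ⟨j, l, hjl, rfl⟩ := card_eq_two.1 hJ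
  rw [← Nat.card_prod, ← Set.ncard_univ]
  refine Set.ncard_congr (fun y _ => ((X.pr y).1.1 j, X.st y)) (fun _ _ => Set.mem_univ _)
    (fun y z hy hz e => ?_) (fun p _ => ?_)
  · obtain ⟨e1, e2⟩ := Prod.mk.inj e
    refine h.inj hJ.le hy hz (D.ext0 l (fun t ht => ?_) ?_)
    · by_cases htj : t = j
      · rw [htj, e1]
      · rw [D.res0 (D.res1 (X.pr_res hy)) (by simp [ht, htj]),
          D.res0 (D.res1 (X.pr_res hz)) (by simp [ht, htj])]
    · exact congrArg Subtype.val ((X.pr_st y).trans (e2.trans (X.pr_st z).symm))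
  · obtain ⟨_, ⟨u, hu, rfl⟩, h1, h2⟩ := D.reach0 hjl (X.pr x).1 p.1 p.2
    refine ⟨X.run x u, ⟨u, hu, rfl⟩, Prod.ext ?_ ?_⟩
    · rw [← h1, ← pr_run0]
    · rw [← h2, ← pr_run0, X.pr_st]

end Ov

/-- The wall cover over itself. -/
def Dat.one (D : Dat R) : Ov D D.X1 where
  toCh := D.C1
  pr := id
  pr_mv _ _ := rfl
  pr_st _ := rfl

lemma Dat.one_r2 (D : Dat R) : D.one.R2 := fun _ ω _ _ hJ hu hu' h => D.r2_one hJ ω hu hu' h

/-- Voltage data: a label to be crossed, two selecting labels and values in a group. -/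
structure Vo (D : Dat R) (Λ : Type) where
  l0 : I → ZMod (D.k D.κ0)
  l1 : I → ZMod (D.k D.κ0)
  l2 : I → ZMod (D.k D.κ0)
  U : ZMod 2 → ZMod 2 → Λ

namespace Vo

variable {Λ Ω : Type} [Group Λ] (v : Vo D Λ)

def g (x : D.X1) : Λ :=
  if x.2 D.κ0 v.l0 = 0 then 1 else v.U (x.2 D.κ0 v.l1) (x.2 D.κ0 v.l2)

def vo (x x' : D.X1) : Λ :=
  if x'.2 D.κ0 v.l0 = x.2 D.κ0 v.l0 then 1 else v.g x' * (v.g x)⁻¹

/-- The selecting labels do not meet the crossed label in a residue of type `J`. -/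
def Far (J : Finset I) : Prop := (∃ i ∉ J, v.l1 i ≠ v.l0 i) ∧ ∃ i ∉ J, v.l2 i ≠ v.l0 i

lemma w_same {J : Finset I} {a : I × D.S} (ha : a.1 ∈ J) (x : D.X1) {l : I → ZMod (D.k D.κ0)}
    {i : I} (hi : i ∉ J) (h : l i ≠ D.Z D.κ0 x.1 i + D.Z D.κ0 x.1 i) :
    (D.m1 a x).2 D.κ0 l = x.2 D.κ0 l := by
  have : i ≠ a.1 := fun e => hi (e ▸ ha)
  simp only [Dat.m1, Dat.tg]
  rw [if_neg, add_zero]
  rintro ⟨-, rfl⟩
  exact h (by simp [D.Z_m0, this])

lemma cob {J : Finset I} (hJ : v.Far J) (y : D.X0) : ∃ h : D.X1 → Λ, ∀ (x : D.X1) (a : I × D.S),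
    x.1 ∈ D.C0.Res J y → a.1 ∈ J → v.vo x (D.m1 a x) = h (D.m1 a x) * (h x)⁻¹ := by
  have hz : ∀ x : D.X1, x.1 ∈ D.C0.Res J y → ∀ i ∉ J, D.Z D.κ0 x.1 i = D.Z D.κ0 y i :=
    fun x hx i hi => congrArg (D.π D.κ0) (D.res0 hx hi)
  by_cases c : ∀ i ∉ J, v.l0 i = D.Z D.κ0 y i + D.Z D.κ0 y i
  · refine ⟨v.g, fun x a hx ha => ?_⟩
    obtain ⟨⟨i, hi, h1⟩, i', hi', h2⟩ := hJ
    have e1 := w_same ha x (l := v.l1) hi (by rwa [hz x hx i hi, ← c i hi])
    have e2 := w_same ha x (l := v.l2) hi' (by rwa [hz x hx i' hi', ← c i' hi'])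
    unfold vo
    split_ifs with e
    · rw [g, g, e, e1, e2, mul_inv_cancel]
    · rfl
  · push Not at c
    obtain ⟨i, hi, h⟩ := c
    refine ⟨fun _ => 1, fun x a hx ha => ?_⟩
    rw [vo, if_pos (w_same ha x hi (by rwa [hz x hx i hi]))]
    simp

/-- The cover defined by a voltage. -/
def cov (hv : ∀ j, v.Far {j}) (X : Ov D Ω) : Ov D (Ω × Λ) where
  mv a p := (X.mv a p.1, v.vo (X.pr p.1) (D.m1 a (X.pr p.1)) * p.2)
  st p := X.st p.1
  st_mv a p := X.st_mv a p.1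
  mv_mv j s s' p := by
    refine Prod.ext (X.mv_mv _ _ _ _) ?_
    obtain ⟨h, hh⟩ := v.cob (hv j) (X.pr p.1).1
    have e : D.m1 (j, s) (D.m1 (j, s') (X.pr p.1)) = D.m1 (j, s) (X.pr p.1) := D.C1.mv_mv _ _ _ _
    simp only [X.pr_mv]
    rw [hh _ (j, s) (Ch.res_mv (C := D.C0) (a := (j, s')) (mem_singleton_self j) _)
        (mem_singleton_self j), hh _ (j, s') (Ch.res_refl _ _) (mem_singleton_self j),
      hh _ (j, s) (Ch.res_refl _ _) (mem_singleton_self j), e]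
    group
  mv_st j p := by
    refine Prod.ext (X.mv_st _ _) ?_
    have e : D.m1 (j, X.st p.1) (X.pr p.1) = X.pr p.1 := by rw [← X.pr_mv, X.mv_st]
    simp [e, vo]
  pr p := X.pr p.1
  pr_mv a p := X.pr_mv a p.1
  pr_st p := X.pr_st p.1

variable {v} (hv : ∀ j, v.Far {j}) (X : Ov D Ω)

lemma run_fst (p : Ω × Λ) (u : Wd D.S) : ((v.cov hv X).run p u).1 = X.run p.1 u := by
  induction u generalizing p with
  | nil => rfl
  | cons a u ih => exact ih _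

lemma run_snd (ω : Ω) (u : Wd D.S) (ξ : Λ) :
    ((v.cov hv X).run (ω, ξ) u).2 = ((v.cov hv X).run (ω, 1) u).2 * ξ := by
  induction u generalizing ω ξ with
  | nil => simp
  | cons a u ih =>
    change ((v.cov hv X).run (_, _) u).2 = ((v.cov hv X).run (_, _) u).2 * ξ
    rw [ih, ih _ (_ * _), mul_one, mul_assoc]

lemma run_eq {J : Finset I} (hJ : v.Far J) (p : Ω × Λ) {u u' : Wd D.S} (hu : In J u)
    (hu' : In J u') (e : X.run p.1 u = X.run p.1 u') :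
    (v.cov hv X).run p u = (v.cov hv X).run p u' := by
  obtain ⟨h, hh⟩ := v.cob hJ (X.pr p.1).1
  have key : ∀ (u : Wd D.S), In J u → ∀ q : Ω × Λ, (X.pr q.1).1 ∈ D.C0.Res J (X.pr p.1).1 →
      ((v.cov hv X).run q u).2 = h (X.pr (X.run q.1 u)) * (h (X.pr q.1))⁻¹ * q.2 := by
    intro u
    induction u with
    | nil => intro _ q _; simp
    | cons a u ih =>
      intro hu q hq
      have ha := (in_cons.1 hu).1
      rw [Ch.run_cons, ih (in_cons.1 hu).2 _ (by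
        change (X.pr (X.mv a q.1)).1 ∈ _
        rw [X.pr_mv]
        exact Ch.res_trans hq (Ch.res_mv (C := D.C0) ha _))]
      change h (X.pr (X.run (X.mv a q.1) u)) * (h (X.pr (X.mv a q.1)))⁻¹ *
        (v.vo (X.pr q.1) (D.m1 a (X.pr q.1)) * q.2) = _
      rw [hh _ a hq ha, X.pr_mv, Ch.run_cons]
      group
  refine Prod.ext (by rw [run_fst, run_fst, e]) ?_
  rw [key u hu p (Ch.res_refl _ _), key u' hu' p (Ch.res_refl _ _), e]

lemma cov_r2 (h2 : ∀ J : Finset I, J.card ≤ 2 → v.Far J) (h : X.R2) : (v.cov hv X).R2 :=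
  fun J p _ _ hJ hu hu' e => run_eq hv X (h2 J hJ) p hu hu' (h J p.1 _ _ hJ hu hu' e)

end Vo

namespace Ov

variable {Ω : Type} (X : Ov D Ω) (x0 : Ω)

/-- Two words act in the same way after every change of types. -/
def Rel (s : D.S) (u u' : Wd D.S) : Prop :=
  ∀ (f : I → I) (x : Ω), X.st x = s → X.run x (fo f u) = X.run x (fo f u')

lemma Rel.fo {s : D.S} {u u' : Wd D.S} (h : X.Rel s u u') (f : I → I) :
    X.Rel s (fo f u) (fo f u') := fun g x hx => by rw [fo_fo, fo_fo]; exact h _ x hx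

def Y : Type := {φ : (I → I) × {x // X.st x = X.st x0} → Ω //
  ∃ u, φ = fun p => X.run p.2.1 (fo p.1 u)}

instance [Finite Ω] : Finite (X.Y x0) := Subtype.finite

def y0 : X.Y x0 := ⟨fun p => p.2.1, [], rfl⟩

lemma st_Y (φ : X.Y x0) (p) : X.st (φ.1 p) = X.st (φ.1 (id, ⟨x0, rfl⟩)) := by
  obtain ⟨_, u, rfl⟩ := φ
  simp only [Ch.st_run, fin_fo, p.2.2]

/-- The symmetrisation. -/
def sym : Ov D (X.Y x0) where
  mv a φ := ⟨fun p => X.mv (p.1 a.1, a.2) (φ.1 p), by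
    obtain ⟨_, u, rfl⟩ := φ
    exact ⟨u ++ [a], funext fun p => by rw [fo_append, Ch.run_append]; rfl⟩⟩
  st φ := X.st (φ.1 (id, ⟨x0, rfl⟩))
  st_mv a φ := X.st_mv _ _
  mv_mv j s s' φ := Subtype.ext (funext fun p => X.mv_mv _ _ _ _)
  mv_st j φ := Subtype.ext (funext fun p => by
    change X.mv (p.1 j, _) (φ.1 p) = _
    rw [← X.st_Y x0 φ p, X.mv_st])
  pr φ := X.pr (φ.1 (id, ⟨x0, rfl⟩))
  pr_mv a φ := X.pr_mv _ _
  pr_st φ := X.pr_st _

lemma sym_run (φ : X.Y x0) (u : Wd D.S) (p) :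
    ((X.sym x0).run φ u).1 p = X.run (φ.1 p) (fo p.1 u) := by
  induction u generalizing φ with
  | nil => rfl
  | cons a u ih => exact ih _

lemma sym_reach (φ : X.Y x0) : ∃ u, (X.sym x0).run (X.y0 x0) u = φ := by
  obtain ⟨_, u, rfl⟩ := φ
  exact ⟨u, Subtype.ext (funext fun p => X.sym_run x0 _ u p)⟩

lemma sym_eq (φ : X.Y x0) (u u' : Wd D.S) :
    (X.sym x0).run φ u = (X.sym x0).run φ u' ↔ X.Rel ((X.sym x0).st φ) u u' := by
  constructor
  · intro h f x hx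
    obtain ⟨_, w, rfl⟩ := φ
    obtain ⟨z, h1, h2⟩ := X.run_surj (fo f w) (X.st x0) x (by
      rw [hx, fin_fo]
      change X.st (X.run x0 (fo id w)) = _
      rw [Ch.st_run, fin_fo])
    have := (X.sym_run x0 _ u _).symm.trans
      ((congrArg (fun φ : X.Y x0 => φ.1 (f, ⟨z, h1⟩)) h).trans (X.sym_run x0 _ u' _))
    exact h2 ▸ this
  · intro h
    refine Subtype.ext (funext fun p => ?_)
    rw [sym_run, sym_run]
    exact h _ _ (X.st_Y x0 φ p)

lemma sym_r2 (h : X.R2) : (X.sym x0).R2 := by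
  intro J φ u u' hJ hu hu' e
  refine (X.sym_eq x0 φ u u').2 fun f x hx => ?_
  refine h (J.image f) x _ _ (card_image_le.trans hJ) (hu.fo fun j hj => mem_image_of_mem f hj)
    (hu'.fo fun j hj => mem_image_of_mem f hj) (D.fold0 f ?_ e)
  rw [X.pr_st, hx]
  exact (X.sym x0).pr_st φ

variable {Λ : Type} [Group Λ] {v : Vo D Λ} (hv : ∀ j, v.Far {j})

/-- The local properties of a voltage cover of the symmetrisation. -/
theorem loc [Finite Ω] [Finite Λ] (h : X.R2) (h3 : ∀ J : Finset I, J.card ≤ 3 → v.Far J) :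
    (v.cov hv (X.sym x0)).Loc (Nat.card R * Nat.card D.S)
      ((X.sym x0).Res {3}ᶜ (X.y0 x0)).ncard := by
  have r2 := Vo.cov_r2 hv _ (fun J hJ => h3 J (by omega)) (X.sym_r2 x0 h)
  have down : ∀ p u u', (v.cov hv (X.sym x0)).run p u = (v.cov hv (X.sym x0)).run p u' →
      X.Rel ((X.sym x0).st p.1) u u' := fun p u u' e =>
    (X.sym_eq x0 p.1 u u').1 (by rw [← Vo.run_fst hv, ← Vo.run_fst hv, e])
  refine ⟨fun p u u' f J hJ hu hu' e => ?_, r2.tri, c0, r2.c2, fun J p hJ => ?_⟩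
  · exact Vo.run_eq hv _ (h3 J hJ) p hu hu' ((X.sym_eq x0 _ _ _).2 ((down p u u' e).fo X f))
  · obtain ⟨σ, j, hj, h1, h2⟩ : ∃ σ : I → I, ∃ j ∈ J, σ ∘ σ = id ∧
        ∀ t, t ∈ J ↔ σ t ∈ ({3}ᶜ : Finset I) := by
      obtain ⟨i, hi⟩ := card_eq_one.1 (show Jᶜ.card = 1 by rw [card_compl, hJ]; rfl)
      obtain rfl : J = {i}ᶜ := by rw [← hi, compl_compl]
      obtain ⟨j, hj⟩ := Dat.other i
      refine ⟨Equiv.swap i 3, j, by simpa using hj.symm, funext fun t => by simp, fun t => ?_⟩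
      simp [Equiv.swap_apply_eq_iff]
    have e := Ch.res_eq (Ch.res_mv (C := (v.cov hv (X.sym x0)).toCh) (a := (j, X.st x0)) hj p)
    rw [← e]
    have hs : (X.sym x0).st ((v.cov hv (X.sym x0)).mv (j, X.st x0) p).1 = X.st x0 :=
      (v.cov hv (X.sym x0)).st_mv _ _
    generalize (v.cov hv (X.sym x0)).mv (j, X.st x0) p = q at hs
    have back : ∀ {u u'}, X.Rel (X.st x0) (fo σ u) (fo σ u') → X.Rel (X.st x0) u u' := by
      intro u u' r
      have := r.fo X σ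
      rwa [fo_fo, fo_fo, h1, fo_id, fo_id] at this
    refine le_antisymm (Ch.card_le σ (fun t ht => (h2 t).1 ht) fun u u' hu hu' e => ?_)
      (Ch.card_le σ (fun t ht => (h2 _).2 (by rwa [show σ (σ t) = t from congrFun h1 t]))
        fun u u' _ _ e => ?_)
    · refine Vo.run_eq hv _ (h3 J hJ.le) q hu hu' ((X.sym_eq x0 _ _ _).2 ?_)
      rw [hs]
      exact back ((X.sym_eq x0 _ _ _).1 e)
    · have := down q _ _ e
      rw [hs] at this
      exact (X.sym_eq x0 _ _ _).2 (back this)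

end Ov

end Pool.Agent.Lib.MP_972ec5_co.Sum
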