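import Pool.Agent.Lib.MP_972ec5_co.Sum.Volt

/-! Explicit closed galleries and their voltages. -/

namespace Pool.Agent.Lib.MP_972ec5_co.Sum

open Finset

def nz (Z : I → ℤ) (b : Bool) (j : I) : I → ℤ :=
  fun i => Z i + if i = j then (if b then -1 else 1) else 0

def labs : (I → ℤ) → Bool → List I → List (I → ℤ)
  | _, _, [] => []
  | Z, b, j :: l => (Z + nz Z b j) :: labs (nz Z b j) (!b) l

def fz : (I → ℤ) → Bool → List I → (I → ℤ) × Bool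
  | Z, b, [] => (Z, b)
  | Z, b, j :: l => fz (nz Z b j) (!b) l

def cnt (l : I → ℤ) : List (I → ℤ) → ZMod 2
  | [] => 0
  | v :: L => (if l = v then 1 else 0) + cnt l L

abbrev dif (n : ℤ) : Prop := n = 1 ∨ n = -1 ∨ n = 2 ∨ n = -2

abbrev rob (l v : I → ℤ) : Prop := l = v ∨ ∃ i, dif (l i - v i)

def cs (k : ℕ) (Z : I → ℤ) : I → ZMod k := fun i => (Z i : ZMod k)

lemma dif_ne {k : ℕ} (hk : 3 ≤ k) {a b : ℤ} (h : dif (a - b)) : (a : ZMod k) ≠ b := by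
  intro e
  have h1 := (ZMod.intCast_eq_intCast_iff_dvd_sub b a k).1 e.symm
  have h2 := Int.le_of_dvd (abs_pos.2 (by omega)) ((dvd_abs _ _).2 h1 : (k : ℤ) ∣ |a - b|)
  rcases h with h | h | h | h <;> rw [h] at h2 <;> norm_num at h2 <;> omega

lemma cs_eq {k : ℕ} (hk : 3 ≤ k) {l v : I → ℤ} (h : rob l v) : cs k l = cs k v ↔ l = v := by
  refine ⟨fun e => ?_, congrArg _⟩
  rcases h with h | ⟨i, h⟩
  · exact h
  · exact absurd (congrFun e i) (dif_ne hk h)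

variable {R : Type} [AddCommGroup R] {D : Dat R}

namespace Dat

def sb (D : Dat R) : Bool → D.S
  | true => ⟨D.s1, D.s1_mem⟩
  | false => ⟨0, D.zero_mem⟩

def wd (D : Dat R) : Bool → List I → Wd D.S
  | _, [] => []
  | b, j :: l => (j, D.sb (!b)) :: wd D (!b) l

def At (x : D.X1) (p : (I → ℤ) × Bool) : Prop :=
  D.Z D.κ0 x.1 = cs _ p.1 ∧ D.C0.st x.1 = D.sb p.2

lemma At.step {x : D.X1} {Z : I → ℤ} {b : Bool} (h : At x (Z, b)) (j : I) :
    At (D.m1 (j, D.sb (!b)) x) (nz Z b j, !b) ∧ ∀ l, (D.m1 (j, D.sb (!b)) x).2 D.κ0 l =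
      x.2 D.κ0 l + if l = cs _ (Z + nz Z b j) then 1 else 0 := by
  have hs : ∀ (y : D.X0) (c : Bool), D.C0.st y = D.sb c → D.σ D.κ0 y = if c then 1 else 0 := by
    intro y c e
    have : ∑ i, y.1 i = (D.sb c).1 := congrArg Subtype.val e
    rw [σ, this]
    cases c <;> simp [sb, D.π_s1]
  have h1 := hs _ _ h.2
  have h2 := hs _ _ (D.C0.st_mv (j, D.sb (!b)) x.1)
  have h3 : D.Z D.κ0 (D.m0 (j, D.sb (!b)) x.1) = cs _ (nz Z b j) := by
    rw [Z_m0, h.1, h1]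
    erw [h2]
    funext i
    by_cases hi : i = j <;> cases b <;> simp [cs, nz, hi]
  refine ⟨⟨h3, D.C0.st_mv _ _⟩, fun l => ?_⟩
  have h4 : D.σ D.κ0 x.1 ≠ D.σ D.κ0 (D.m0 (j, D.sb (!b)) x.1) := by
    have := one_ne (D.three D.κ0)
    rw [h1]
    erw [h2]
    cases b <;> simp [this, this.symm]
  have h5 : cs (D.k D.κ0) Z + cs _ (nz Z b j) = cs _ (Z + nz Z b j) := by
    funext i; simp [cs]
  simp only [m1, tg, h3, h.1, h5, h4, ne_eq, not_false_eq_true, true_and]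

lemma At.run (l : List I) {x : D.X1} {Z : I → ℤ} {b : Bool} (h : At x (Z, b)) :
    At (D.C1.run x (D.wd b l)) (fz Z b l) ∧ ∀ m, (∀ v ∈ labs Z b l, rob m v) →
      (D.C1.run x (D.wd b l)).2 D.κ0 (cs _ m) = x.2 D.κ0 (cs _ m) + cnt m (labs Z b l) := by
  induction l generalizing x Z b with
  | nil => exact ⟨h, fun m _ => by simp [wd, labs, cnt]⟩
  | cons j l ih =>
    obtain ⟨h1, h2⟩ := h.step j
    refine ⟨(ih h1).1, fun m hm => ?_⟩
    have hm' := List.forall_mem_cons.1 hm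
    refine ((ih h1).2 m hm'.2).trans ?_
    rw [h2, labs, cnt, add_assoc]
    simp only [cs_eq (D.three _) hm'.1]

end Dat

def e0 : I → ℤ := ![1, 0, 0, 0]

variable {Λ Ω : Type} [Group Λ]

def mkVo (D : Dat R) (m1 m2 : I → ℤ) (U : ZMod 2 → ZMod 2 → Λ) : Vo D Λ :=
  ⟨cs _ e0, cs _ m1, cs _ m2, U⟩

omit [Group Λ] in
lemma mk_far {m1 m2 : I → ℤ} (U : ZMod 2 → ZMod 2 → Λ) {J : Finset I}
    (h1 : ∃ i ∉ J, dif (m1 i - e0 i)) (h2 : ∃ i ∉ J, dif (m2 i - e0 i)) : (mkVo D m1 m2 U).Far J :=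
  ⟨let ⟨i, hi, h⟩ := h1; ⟨i, hi, dif_ne (D.three _) h⟩,
    let ⟨i, hi, h⟩ := h2; ⟨i, hi, dif_ne (D.three _) h⟩⟩

section
variable {m1 m2 : I → ℤ} {U : ZMod 2 → ZMod 2 → Λ} (hv : ∀ j, (mkVo D m1 m2 U).Far {j})
  (X : Ov D Ω)

lemma run_free (l : List I) {Z : I → ℤ} {b : Bool} (hl : ∀ v ∈ labs Z b l, rob e0 v ∧ e0 ≠ v)
    {p : Ω × Λ} (h : Dat.At (X.pr p.1) (Z, b)) :
    (((mkVo D m1 m2 U).cov hv X).run p (D.wd b l)).2 = p.2 := by
  induction l generalizing p Z b with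
  | nil => rfl
  | cons j l ih =>
    obtain ⟨h1, h2⟩ := h.step j
    have hl' := List.forall_mem_cons.1 hl
    refine (ih hl'.2 (by rw [← X.pr_mv] at h1; exact h1)).trans ?_
    change Vo.vo _ _ _ * p.2 = p.2
    rw [Vo.vo, if_pos, one_mul]
    refine (h2 (cs _ e0)).trans ?_
    rw [if_neg fun e => hl'.1.2 ((cs_eq (D.three _) hl'.1.1).1 e), add_zero]
    rfl

/-- The state at the base point of the wall. -/
def St (m1 m2 : I → ℤ) (X : Ov D Ω) (p : Ω × Λ) (t0 t1 t2 : ZMod 2) (ξ : Λ) : Prop :=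
  Dat.At (X.pr p.1) (0, false) ∧ (X.pr p.1).2 D.κ0 (cs _ e0) = t0 ∧
    (X.pr p.1).2 D.κ0 (cs _ m1) = t1 ∧ (X.pr p.1).2 D.κ0 (cs _ m2) = t2 ∧ p.2 = ξ

lemma cnt_zero {m : I → ℤ} {L : List (I → ℤ)} (h : ∀ v ∈ L, m ≠ v) : cnt m L = 0 := by
  induction L with
  | nil => rfl
  | cons v L ih =>
    have := List.forall_mem_cons.1 h
    rw [cnt, if_neg this.1, ih this.2, add_zero]

lemma St.free {p : Ω × Λ} {t0 t1 t2 : ZMod 2} {ξ : Λ} (h : St m1 m2 X p t0 t1 t2 ξ) (l : List I)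
    (hc : fz 0 false l = (0, false))
    (hl : ∀ v ∈ labs 0 false l, (rob e0 v ∧ e0 ≠ v) ∧ rob m1 v ∧ rob m2 v) :
    St m1 m2 X (((mkVo D m1 m2 U).cov hv X).run p (D.wd false l)) t0
      (t1 + cnt m1 (labs 0 false l)) (t2 + cnt m2 (labs 0 false l)) ξ := by
  obtain ⟨h0, rfl, rfl, rfl, rfl⟩ := h
  obtain ⟨a1, a2⟩ := h0.run l
  unfold St
  rw [Vo.run_fst, X.pr_run]
  refine ⟨hc ▸ a1, ?_, a2 _ fun v hv => (hl v hv).2.1, a2 _ fun v hv => (hl v hv).2.2,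
    run_free hv X l (fun v hv => (hl v hv).1) h0⟩
  rw [a2 _ fun v hv => (hl v hv).1.1, cnt_zero fun v hv => (hl v hv).1.2, add_zero]

lemma St.cross {p : Ω × Λ} {t0 t1 t2 : ZMod 2} {ξ : Λ} (h : St m1 m2 X p t0 t1 t2 ξ) (l : List I)
    (hc : fz e0 true l = (0, false)) (h1 : rob m1 e0 ∧ m1 ≠ e0) (h2 : rob m2 e0 ∧ m2 ≠ e0)
    (hl : ∀ v ∈ labs e0 true l, (rob e0 v ∧ e0 ≠ v) ∧ rob m1 v ∧ rob m2 v) :
    St m1 m2 X (((mkVo D m1 m2 U).cov hv X).run p (D.wd false (0 :: l))) (t0 + 1)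
      (t1 + cnt m1 (labs e0 true l)) (t2 + cnt m2 (labs e0 true l))
      ((if t0 = 0 then U t1 t2 else (U t1 t2)⁻¹) * ξ) := by
  obtain ⟨h0, rfl, rfl, rfl, rfl⟩ := h
  obtain ⟨b1, b2⟩ := h0.step 0
  have z1 : nz 0 false 0 = e0 := by decide
  rw [z1] at b1 b2
  rw [zero_add] at b2
  have c0 := b2 (cs _ e0)
  have c1 := b2 (cs _ m1)
  have c2 := b2 (cs _ m2)
  rw [if_pos rfl] at c0
  rw [if_neg fun e => h1.2 ((cs_eq (D.three _) h1.1).1 e), add_zero] at c1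
  rw [if_neg fun e => h2.2 ((cs_eq (D.three _) h2.1).1 e), add_zero] at c2
  obtain ⟨a1, a2⟩ := b1.run l
  unfold St
  rw [Vo.run_fst, X.pr_run]
  refine ⟨hc ▸ a1, ?_, (a2 _ fun v hv => (hl v hv).2.1).trans (by rw [c1]; rfl),
    (a2 _ fun v hv => (hl v hv).2.2).trans (by rw [c2]; rfl), ?_⟩
  · refine (a2 _ fun v hv => (hl v hv).1.1).trans ?_
    rw [c0]
    erw [cnt_zero fun v hv => (hl v hv).1.2]
    rw [add_zero]
  · refine (run_free hv X l (fun v hv => (hl v hv).1) (by rw [← X.pr_mv] at b1; exact b1)).trans ?_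
    change Vo.vo _ _ _ * p.2 = _
    congr 1
    have two : ∀ t : ZMod 2, t + 1 ≠ t ∧ (t + 1 = 0 ↔ ¬ t = 0) := by decide
    have g0 : (mkVo D m1 m2 U).g (X.pr p.1) = if (X.pr p.1).2 D.κ0 (cs _ e0) = 0 then 1 else
      U ((X.pr p.1).2 D.κ0 (cs _ m1)) ((X.pr p.1).2 D.κ0 (cs _ m2)) := rfl
    have g1 : (mkVo D m1 m2 U).g (D.m1 (0, D.sb !false) (X.pr p.1)) =
        if (X.pr p.1).2 D.κ0 (cs _ e0) + 1 = 0 then 1 else
      U ((X.pr p.1).2 D.κ0 (cs _ m1)) ((X.pr p.1).2 D.κ0 (cs _ m2)) := by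
      rw [← c0, ← c1, ← c2]; rfl
    refine (if_neg fun e => (two _).1 (c0.symm.trans e)).trans ?_
    erw [g0, g1]
    by_cases h : (X.pr p.1).2 D.κ0 (cs _ e0) = 0
    · rw [if_pos h, if_pos h, if_neg fun e => (two _).2.1 e h, inv_one, mul_one]
    · rw [if_neg h, if_neg h, if_pos ((two _).2.2 h), one_mul]

end

/-- The hexagon through the crossed label, without its first letter. -/
def hx : List I := [1, 2, 0, 1, 2]

def ga : List I := [2, 3, 1, 2, 3, 1]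

def gb : List I := [2, 3, 1, 3, 2, 1, 3, 2, 3, 2]

def mu : I → ℤ := ![0, -1, 2, 0]

def l1 : I → ℤ := ![0, 1, 2, -2]

def l2 : I → ℤ := ![0, 2, 1, -2]

omit [Group Λ] in
lemma far_mu (U : ZMod 2 → ZMod 2 → Λ) (J : Finset I) (hJ : J.card ≤ 2) :
    (mkVo D mu mu U).Far J :=
  have : ∀ J : Finset I, J.card ≤ 2 → ∃ i ∉ J, dif (mu i - e0 i) := by decide
  mk_far U (this J hJ) (this J hJ)

omit [Group Λ] in
lemma far_l (U : ZMod 2 → ZMod 2 → Λ) (J : Finset I) (hJ : J.card ≤ 3) :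
    (mkVo D l1 l2 U).Far J :=
  have : ∀ J : Finset I, J.card ≤ 3 →
    (∃ i ∉ J, dif (l1 i - e0 i)) ∧ ∃ i ∉ J, dif (l2 i - e0 i) := by decide
  mk_far U (this J hJ).1 (this J hJ).2

/-- The double hexagon. -/
def Dat.hh (D : Dat R) : Wd D.S := D.wd false (0 :: hx) ++ D.wd false (0 :: hx)

lemma hh_in : In ({3}ᶜ : Finset I) D.hh := by
  simp [Dat.hh, Dat.wd, hx, In]

lemma St.hh {U : ZMod 2 → ZMod 2 → Λ} (hU : U 0 0 = 1) (hv : ∀ j, (mkVo D mu mu U).Far {j})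
    (X : Ov D Ω) {p : Ω × Λ} {ξ : Λ} (h : St mu mu X p 0 0 0 ξ) :
    St mu mu X (((mkVo D mu mu U).cov hv X).run p D.hh) 0 0 0 ((U 1 1)⁻¹ * ξ) := by
  have e : cnt mu (labs e0 true hx) = 1 := by decide
  have h1 := h.cross hv X hx (by decide) (by decide) (by decide) (by decide)
  have h2 := h1.cross hv X hx (by decide) (by decide) (by decide) (by decide)
  rw [Dat.hh, Ch.run_append]
  simpa [e, hU, show (1 + 1 : ZMod 2) = 0 from rfl] using h2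

/-- The selecting loops. -/
def Dat.sel (D : Dat R) : Fin 3 → Wd D.S :=
  ![D.wd false ga, D.wd false gb, D.wd false ga ++ D.wd false gb]

/-- The loops that carry the three generators. -/
def Dat.lp (D : Dat R) (j : Fin 3) : Wd D.S :=
  D.sel j ++ D.wd false (0 :: hx) ++ D.sel j ++ D.wd false (0 :: hx)

def sv : Fin 3 → ZMod 2 × ZMod 2 := ![(1, 1), (1, 0), (0, 1)]

/-- The voltage with prescribed values. -/
def UU (u : Fin 3 → Λ) (a b : ZMod 2) : Λ :=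
  if a = 0 then (if b = 0 then 1 else u 2) else (if b = 0 then u 1 else u 0)

section
variable {U : ZMod 2 → ZMod 2 → Λ} (hv : ∀ j, (mkVo D l1 l2 U).Far {j}) (X : Ov D Ω)
  {p : Ω × Λ} {t0 t1 t2 : ZMod 2} {ξ : Λ}

lemma St.sel (h : St l1 l2 X p t0 t1 t2 ξ) (j : Fin 3) :
    St l1 l2 X (((mkVo D l1 l2 U).cov hv X).run p (D.sel j)) t0 (t1 + (sv j).1) (t2 + (sv j).2) ξ := by
  have a : ∀ {p : Ω × Λ} {t1 t2}, St l1 l2 X p t0 t1 t2 ξ →
      St l1 l2 X (((mkVo D l1 l2 U).cov hv X).run p (D.wd false ga)) t0 (t1 + 1) (t2 + 1) ξ :=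
    fun h => h.free hv X ga (by decide) (by decide)
  have b : ∀ {p : Ω × Λ} {t1 t2}, St l1 l2 X p t0 t1 t2 ξ →
      St l1 l2 X (((mkVo D l1 l2 U).cov hv X).run p (D.wd false gb)) t0 (t1 + 1) (t2 + 0) ξ :=
    fun h => h.free hv X gb (by decide) (by decide)
  fin_cases j
  · exact a h
  · exact b h
  · have := b (a h)
    rw [add_assoc t1, add_zero, ← Ch.run_append] at this
    exact this

lemma St.hex (h : St l1 l2 X p t0 t1 t2 ξ) :
    St l1 l2 X (((mkVo D l1 l2 U).cov hv X).run p (D.wd false (0 :: hx))) (t0 + 1) t1 t2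
      ((if t0 = 0 then U t1 t2 else (U t1 t2)⁻¹) * ξ) := by
  have := h.cross hv X hx (by decide) (by decide) (by decide) (by decide)
  rwa [show cnt l1 (labs e0 true hx) = 0 by decide, show cnt l2 (labs e0 true hx) = 0 by decide,
    add_zero, add_zero] at this

end

lemma St.lp {u : Fin 3 → Λ} (hv : ∀ j, (mkVo D l1 l2 (UU u)).Far {j}) (X : Ov D Ω) {p : Ω × Λ}
    {ξ : Λ} (h : St l1 l2 X p 0 0 0 ξ) (j : Fin 3) :
    St l1 l2 X (((mkVo D l1 l2 (UU u)).cov hv X).run p (D.lp j)) 0 0 0 (u j * ξ) := by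
  have := (((h.sel hv X j).hex hv X).sel hv X j).hex hv X
  rw [← Ch.run_append, ← Ch.run_append, ← Ch.run_append, ← List.append_assoc,
    ← List.append_assoc] at this
  have e : ∀ t : ZMod 2, t + t = 0 := by decide
  fin_cases j <;> simpa [e, sv, UU, Dat.lp] using this

end Pool.Agent.Lib.MP_972ec5_co.Sum
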